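import Pool.Agent.N939.ME.Stm2

set_option autoImplicit false
open MeasureTheory ProbabilityTheory

namespace Pool.Agent.N939.ME

theorem fin_main (hCLT : S_CLT) (hRES : S_RES) :
  ∀ (S : Type) [mS : MeasurableSpace S] (Q : Kernel S S) [IsMarkovKernel Q]
    (ν : Measure S) [IsProbabilityMeasure ν] (f : S → ℝ),
    ν.bind Q = ν →
    (∀ A : Set S, MeasurableSet A →
      (∀ᵐ x ∂ν, Q x A = A.indicator (fun _ => (1 : ENNReal)) x) → ν A = 0 ∨ ν A = 1) →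
    Measurable f → MemLp f 2 ν → ∫ x, f x ∂ν = 0 →
    Summable (fun k : ℕ =>
      ∫ x, ((fun (h : S → ℝ) => fun y => ∫ z, h z ∂(Q y))^[k+1] f x) ^ 2 ∂ν) →
    (∃ c : ℕ → ℝ, Summable c ∧ ∀ k : ℕ, ∀ g : S → ℝ, Measurable g →
        (∃ C : ℝ, ∀ x, |g x| ≤ C) → ∫ x, g x ^ 2 ∂ν ≤ 1 →
        (∫ x, f x * (fun (h : S → ℝ) => fun y => ∫ z, h z ∂(Q y))^[k+1] g x ∂ν) ^ 2 ≤ c k) →
    ∀ (Ω : Type) [mΩ : MeasurableSpace Ω] (μ : Measure Ω) [IsProbabilityMeasure μ]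
      (X : ℕ → Ω → S),
      (∀ i, Measurable (X i)) → μ.map (X 0) = ν →
      (∀ n : ℕ, ∀ A : Set S, MeasurableSet A →
        condExp (⨆ i ≤ n, MeasurableSpace.comap (X i) mS) μ
          ((X (n+1) ⁻¹' A).indicator (fun _ => (1 : ℝ)))
          =ᵐ[μ] fun ω => (Q (X n ω) A).toReal) →
      ∃ v : NNReal, ∀ g : ℝ → ℝ, Continuous g → (∃ C : ℝ, ∀ x, |g x| ≤ C) →
        Filter.Tendsto
          (fun n : ℕ => ∫ ω, g ((Real.sqrt n)⁻¹ * ∑ i ∈ Finset.range n, f (X i ω)) ∂μ)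
          Filter.atTop (nhds (∫ x, g x ∂(gaussianReal 0 v))) := by
  intro S mS Q _ ν _ f hinv herg hf hf2 hf0 hs1 hs2 Ω mΩ μ _ X hX hX0 hstep
  obtain ⟨Φ, Ψ, hres⟩ := hRES S Q ν hinv f hf hf2 hs1 hs2
  exact ⟨(sg Q ν f Φ Ψ).toNNReal, fun g hg hgb =>
    hCLT S Q ν hinv herg f Φ Ψ hres Ω μ X ⟨hX, hX0, hstep⟩ g hg hgb⟩

end Pool.Agent.N939.ME
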