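import Pool.Agent.N939.ME.Stm3

set_option autoImplicit false
open MeasureTheory ProbabilityTheory Filter Topology Finset
open scoped Classical

namespace Pool.Agent.N939.ME

/-- the one-sided chain `ξ_1, ξ_2, …` of a two-sided stationary Markov chain -/
theorem mc_of_two_sided {S : Type} [mS : MeasurableSpace S] (Q : Kernel S S) [IsMarkovKernel Q]
    (ν : Measure S) [IsProbabilityMeasure ν]
    {Ω : Type} [mΩ : MeasurableSpace Ω] (μ : Measure Ω) [IsProbabilityMeasure μ]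
    (ξ : ℤ → Ω → S) (hξ : ∀ i, Measurable (ξ i)) (hlaw : ∀ i, μ.map (ξ i) = ν)
    (hstep : ∀ n : ℤ, ∀ A : Set S, MeasurableSet A →
        condExp (⨆ (i : ℤ) (_ : i ≤ n), MeasurableSpace.comap (ξ i) mS) μ
          ((ξ (n+1) ⁻¹' A).indicator (fun _ => (1 : ℝ)))
          =ᵐ[μ] fun ω => (Q (ξ n ω) A).toReal) :
    MC Q ν μ (fun n : ℕ => ξ ((n : ℤ) + 1)) := by
  refine ⟨fun i => hξ _, hlaw _, ?_⟩
  intro n A hA
  set m1 : MeasurableSpace Ω := ⨆ i ≤ n, MeasurableSpace.comap ((fun n : ℕ => ξ ((n : ℤ) + 1)) i) mS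
    with hm1
  set m2 : MeasurableSpace Ω := ⨆ (i : ℤ) (_ : i ≤ (n : ℤ) + 1), MeasurableSpace.comap (ξ i) mS
    with hm2
  have h12 : m1 ≤ m2 := by
    refine iSup₂_le fun i hi => ?_
    exact le_iSup₂_of_le ((i : ℤ) + 1) (by omega) le_rfl
  have h2 : m2 ≤ mΩ := iSup₂_le fun i _ => (hξ i).comap_le
  have hs := hstep ((n : ℤ) + 1) A hA
  have hmeas1 : Measurable[m1] (ξ ((n : ℤ) + 1)) := by
    have : MeasurableSpace.comap (ξ ((n : ℤ) + 1)) mS ≤ m1 :=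
      le_iSup₂_of_le (f := fun i (_ : i ≤ n) =>
        MeasurableSpace.comap ((fun n : ℕ => ξ ((n : ℤ) + 1)) i) mS) n le_rfl le_rfl
    exact (comap_measurable (ξ ((n : ℤ) + 1))).mono this le_rfl
  have hQ : Measurable[m1] (fun ω => (Q (ξ ((n : ℤ) + 1) ω) A).toReal) :=
    ((Q.measurable_coe hA).ennreal_toReal).comp hmeas1
  have e1 : (((n + 1 : ℕ) : ℤ) + 1) = (n : ℤ) + 1 + 1 := by push_cast; ring
  rw [e1]
  have htower := condExp_condExp_of_le (μ := μ)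
    (f := ((ξ ((n : ℤ) + 1 + 1) ⁻¹' A).indicator (fun _ => (1 : ℝ)))) h12 h2
  refine htower.symm.trans ?_
  refine (condExp_congr_ae hs).trans ?_
  have hint : Integrable (fun ω => (Q (ξ ((n : ℤ) + 1) ω) A).toReal) μ := by
    refine Integrable.of_bound (C := 1) ?_ ?_
    · exact (((Q.measurable_coe hA).ennreal_toReal).comp (hξ _)).aestronglyMeasurable
    · refine Eventually.of_forall fun ω => ?_
      rw [Real.norm_eq_abs, abs_of_nonneg ENNReal.toReal_nonneg]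
      exact ENNReal.toReal_le_of_le_ofReal zero_le_one (by simpa using prob_le_one)
  rw [condExp_of_stronglyMeasurable (h12.trans h2) hQ.stronglyMeasurable hint]

theorem erg_of_const {S : Type} [MeasurableSpace S] (Q : Kernel S S) [IsMarkovKernel Q]
    (ν : Measure S) [IsProbabilityMeasure ν]
    (h : ∀ h : S → ℝ, Measurable h → MemLp h 2 ν → (∀ᵐ x ∂ν, ∫ y, h y ∂(Q x) = h x) →
      ∃ c : ℝ, ∀ᵐ x ∂ν, h x = c) : Erg Q ν := by
  intro A hA hinv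
  obtain ⟨c, hc⟩ := h (A.indicator 1) (measurable_one.indicator hA)
    (memLp_indicator_const 2 hA (1:ℝ) (Or.inr (measure_ne_top ν A))) (by
      filter_upwards [hinv] with x hx
      rw [integral_indicator_one hA, Measure.real, hx]
      by_cases hxA : x ∈ A <;> simp [hxA])
  by_cases h1 : c = 1
  · right
    rw [← prob_compl_eq_zero_iff hA]
    refine measure_mono_null ?_ hc
    intro x hx hx2
    simp only [Set.mem_compl_iff] at hx
    simp [hx, h1] at hx2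
  · left
    refine measure_mono_null ?_ hc
    intro x hx hx2
    simp [hx] at hx2
    exact h1 hx2.symm

/-- the central limit theorem under the two-sided square root conditions -/
theorem fin_sq (hTT : S_TT) (hCLT : S_CLT) (hG3 : S_G3) (hSQF : S_SQF) (hSQB : S_SQB) :
  ∀ (S : Type) [mS : MeasurableSpace S] (Q : Kernel S S) [IsMarkovKernel Q]
    (ν : Measure S) [IsProbabilityMeasure ν], ν.bind Q = ν →
    (∀ h : S → ℝ, Measurable h → MemLp h 2 ν → (∀ᵐ x ∂ν, ∫ y, h y ∂(Q x) = h x) →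
      ∃ c : ℝ, ∀ᵐ x ∂ν, h x = c) →
    ∀ δ : ℕ → ℝ,
    (∀ x : ℝ, |x| < 1 → HasSum (fun n => δ n * x ^ (n + 1)) (1 - Real.sqrt (1 - x))) →
    ∀ f : S → ℝ, Measurable f → MemLp f 2 ν →
    (∃ g : ℕ → S → ℝ, (∀ n, Measurable (g n) ∧ MemLp (g n) 2 ν) ∧
      (∀ n, ∀ᵐ x ∂ν, g (n + 1) x = ∫ y, g n y ∂(Q x)) ∧
      Tendsto (fun N : ℕ => ∫ x, (g 0 x - ∑ n ∈ range N, δ n * g (n + 1) x - f x) ^ 2 ∂ν)
        atTop (𝓝 0)) →
    (∃ b : ℕ → S → ℝ, (∀ n, Measurable (b n) ∧ MemLp (b n) 2 ν) ∧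
      (∀ n, ∀ h : S → ℝ, Measurable h → MemLp h 2 ν →
        ∫ x, b (n + 1) x * h x ∂ν = ∫ x, b n x * (∫ y, h y ∂(Q x)) ∂ν) ∧
      Tendsto (fun N : ℕ => ∫ x, (b 0 x - ∑ n ∈ range N, δ n * b (n + 1) x - f x) ^ 2 ∂ν)
        atTop (𝓝 0)) →
    ∃ v : NNReal, ∀ (Ω : Type) [mΩ : MeasurableSpace Ω] (μ : Measure Ω)
      [IsProbabilityMeasure μ] (ξ : ℤ → Ω → S),
      (∀ i, Measurable (ξ i)) → (∀ i, μ.map (ξ i) = ν) →
      (∀ n : ℤ, ∀ A : Set S, MeasurableSet A →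
        condExp (⨆ (i : ℤ) (_ : i ≤ n), MeasurableSpace.comap (ξ i) mS) μ
          ((ξ (n+1) ⁻¹' A).indicator (fun _ => (1 : ℝ)))
          =ᵐ[μ] fun ω => (Q (ξ n ω) A).toReal) →
      Tendsto (fun n : ℕ => (∫ ω, (∑ i ∈ Finset.Icc 1 n, f (ξ (i : ℤ) ω)) ^ 2 ∂μ) / n)
        atTop (𝓝 v) ∧
      ∀ φ : ℝ → ℝ, Continuous φ → (∃ C : ℝ, ∀ x, |φ x| ≤ C) →
        Tendsto
          (fun n : ℕ => ∫ ω, φ ((∑ i ∈ Finset.Icc 1 n, f (ξ (i : ℤ) ω)) / Real.sqrt n) ∂μ)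
          atTop (𝓝 (∫ x, φ x ∂(gaussianReal 0 v))) := by
  intro S mS Q _ ν _ hinv herg δ hδ f hf hf2 hg hb
  obtain ⟨g, hg1, hg2, hg3⟩ := hg
  obtain ⟨b, hb1, hb2, hb3⟩ := hb
  have hErg := erg_of_const Q ν herg
  have hcongr := (hTT S Q ν hinv).2.2.2.1
  have hgn : ∀ n, g n =ᵐ[ν] (TT Q)^[n] (g 0) := by
    intro n
    induction n with
    | zero => exact Filter.EventuallyEq.rfl
    | succ n ih =>
      rw [Function.iterate_succ_apply']
      have h1 : g (n + 1) =ᵐ[ν] TT Q (g n) := hg2 n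
      exact h1.trans (hcongr _ _ ih)
  have hF : Tendsto (fun N : ℕ => ∫ x, (g 0 x - ∑ n ∈ range N, δ n * (TT Q)^[n + 1] (g 0) x
      - f x) ^ 2 ∂ν) atTop (𝓝 0) := by
    refine hg3.congr fun N => ?_
    refine integral_congr_ae ?_
    have hall : ∀ᵐ x ∂ν, ∀ n, g n x = (TT Q)^[n] (g 0) x := ae_all_iff.2 hgn
    filter_upwards [hall] with x hx
    simp only [← hx]
  obtain ⟨Φ, hΦm, hΦ2, hΦe⟩ := hSQF S Q ν hinv δ hδ f (g 0) hf hf2 (hg1 0).1 (hg1 0).2 hF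
  obtain ⟨Ψ, hΨm, hΨ2, hΨe⟩ := hSQB S Q ν hinv δ hδ f b hf hf2 (fun n => (hb1 n).1)
    (fun n => (hb1 n).2) hb2 hb3
  have hres : Res Q ν f Φ Ψ := ⟨hf, hf2, hΦm, hΨm, hΦ2, hΨ2, hΦe, hΨe⟩
  refine ⟨(sg Q ν f Φ Ψ).toNNReal, ?_⟩
  intro Ω mΩ μ _ ξ hξ hlaw hstep
  have hMC := mc_of_two_sided Q ν μ ξ hξ hlaw hstep
  have hsum : ∀ (n : ℕ) (ω : Ω), ∑ i ∈ Finset.Icc 1 n, f (ξ (i : ℤ) ω)
      = ∑ i ∈ range n, f (ξ ((i : ℤ) + 1) ω) := by
    intro n ω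
    induction n with
    | zero => simp
    | succ n ih =>
      rw [Finset.sum_Icc_succ_top (by omega), Finset.sum_range_succ, ih]
      push_cast
      rfl
  obtain ⟨hs0, hs1, _⟩ := hG3 S Q ν hinv f Φ Ψ hres Ω μ _ hMC
  constructor
  · rw [Real.coe_toNNReal _ hs0]
    refine hs1.congr fun n => ?_
    simp only [SS, hsum]
  · intro φ hφ hφb
    have := hCLT S Q ν hinv hErg f Φ Ψ hres Ω μ _ hMC φ hφ hφb
    refine this.congr fun n => ?_
    simp only [hsum, div_eq_inv_mul]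

end Pool.Agent.N939.ME
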