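import Pool.Agent.N939.ME.Stm2

/-!
PROJECT ME (helper939): glue.
-/

set_option autoImplicit false
open MeasureTheory ProbabilityTheory Filter Topology Finset
open scoped Classical

namespace Pool.Agent.N939.ME

theorem glue_D (hD1 : S_D1) (hD2 : S_D2) : S_D := by
  intro Ω mΩ μ _ F N M g bad w K hw hK hM hM2 hg2 hgm hbad hMN hgood
  obtain ⟨H, m, hm, hm2, hcond, hmN, hm0, hsum⟩ :=
    hD2 Ω μ F N M g bad w K hw hK hM hM2 hg2 hgm hbad hMN hgood
  obtain ⟨W, U, hW, hU, hU2, hW4, hWU, hUi, hWi⟩ :=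
    hD1 Ω μ H N m (4 * w) K (by positivity) hK hm hm2 hcond
  have hm0m : Measurable (m 0) := (hm.1 0).measurable.mono (H.le 0) le_rfl
  refine ⟨W, fun ω => U ω + m 0 ω, hW, hU.add hm0m, hU2.add (hm2 0), hW4, ?_, ?_, ?_⟩
  · filter_upwards [hMN, hmN, hWU] with ω h1 h2 h3
    linarith
  · have h1 : Integrable (fun ω => U ω ^ 2) μ := hU2.integrable_sq
    have h2 : Integrable (fun ω => m 0 ω ^ 2) μ := (hm2 0).integrable_sq
    have h3 : ∫ ω, (U ω + m 0 ω) ^ 2 ∂μ ≤ ∫ ω, (2 * U ω ^ 2 + 2 * m 0 ω ^ 2) ∂μ := by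
      apply integral_mono (hU2.add (hm2 0)).integrable_sq ((h1.const_mul 2).add (h2.const_mul 2))
      intro ω
      simp only [Pi.add_apply]
      nlinarith [sq_nonneg (U ω - m 0 ω)]
    rw [integral_add (h1.const_mul 2) (h2.const_mul 2), integral_const_mul,
      integral_const_mul] at h3
    set E := ∫ ω, en (fun t => g t ω) (fun t => ω ∈ bad t) N ∂μ with hE
    set G := ∑ t ∈ range N, ∫ ω, (if w < |g t ω| then g t ω ^ 2 else 0) ∂μ with hG
    have hG0 : 0 ≤ G := by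
      apply Finset.sum_nonneg
      intro t _
      apply integral_nonneg
      intro ω
      simp only [Pi.zero_apply]
      split_ifs <;> positivity
    have hE0 : 0 ≤ 16 * (G + E) := by
      refine le_trans ?_ hsum
      apply Finset.sum_nonneg
      intro t _
      apply integral_nonneg
      intro ω
      simp only [Pi.zero_apply]
      split_ifs <;> positivity
    have hm0' : 0 ≤ 2 * w ^ 2 + 2 * E :=
      le_trans (integral_nonneg fun ω => by positivity) hm0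
    simp only at h3 ⊢
    nlinarith [hUi, hsum, hm0, sq_nonneg w]
  · refine hWi.trans ?_
    have : 0 ≤ w ^ 2 * K := by positivity
    nlinarith [sq_nonneg K]

theorem glue_CR (hBK2 : S_BK2) (hF : S_CRF) (hB : S_CRB) (hC : S_CRC) : S_CR := by
  intro S _ Q _ ν _ hinv y hy hy01 A hA ρ hρ0 hρ1 m N hm
  have hρ : 0 < 1 - ρ := by linarith
  have hym : ∀ t, Measurable (yk Q ν y t) := fun t =>
    ((hBK2 S Q ν hinv).2.2.1 y t hy hy01).1
  have hb : ∀ (k t : ℕ), MeasurableSet {x | (k : ℝ) / m < yk Q ν y t x} := fun k t =>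
    measurableSet_lt measurable_const (hym t)
  have hBl : ∀ k, (Blev Q ν y A m k) = fun t => {x | (k : ℝ) / m < yk Q ν y t x} ∪ A := by
    intro k; rfl
  have h1 := fun k : ℕ => hF S Q ν hinv (fun t => {x | (k : ℝ) / m < yk Q ν y t x})
    (hb k) A hA ρ hρ0 hρ1 N
  have h2 := fun k : ℕ => hB S Q ν hinv (fun t => {x | (k : ℝ) / m < yk Q ν y t x})
    (hb k) A hA ρ hρ0 hρ1 N
  have h3 := hC S Q ν hinv y hy hy01 m N hm
  simp only [hBl]
  calc _ = ∑ k ∈ range m, (∑ t ∈ range (N - 1), ∫ x, (({x | (k : ℝ) / m < yk Q ν y t x} ∪ A) \ A).indicator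
        (thf Q ρ (fun t => {x | (k : ℝ) / m < yk Q ν y t x} ∪ A) (N - 1 - t) t) x ∂ν
        + ∑ t ∈ range (N - 1), ∫ x, (({x | (k : ℝ) / m < yk Q ν y t x} ∪ A) \ A).indicator
        (thb Q ν ρ (fun t => {x | (k : ℝ) / m < yk Q ν y t x} ∪ A) t) x ∂ν) := by
        simp only [sum_add_distrib]
    _ ≤ ∑ k ∈ range m, (1 / (1 - ρ) * ∑ t ∈ range (N - 1),
        ∫ x, ({x | (k : ℝ) / m < yk Q ν y t x}).indicator
          (TT Q (({x | (k : ℝ) / m < yk Q ν y (t + 1) x}ᶜ).indicator 1)) x ∂ν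
        + 1 / (1 - ρ) * ∑ t ∈ range (N - 1),
          ∫ x, (({x | (k : ℝ) / m < yk Q ν y t x})ᶜ).indicator
          (TT Q (({x | (k : ℝ) / m < yk Q ν y (t + 1) x}).indicator 1)) x ∂ν) :=
        Finset.sum_le_sum fun k _ => add_le_add (h1 k) (h2 k)
    _ = 1 / (1 - ρ) * ∑ k ∈ range m, ∑ t ∈ range (N - 1),
      (∫ x, ({x | (k : ℝ) / m < yk Q ν y t x}).indicator
          (TT Q (({x | (k : ℝ) / m < yk Q ν y (t + 1) x}ᶜ).indicator 1)) x ∂ν
        + ∫ x, (({x | (k : ℝ) / m < yk Q ν y t x})ᶜ).indicator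
          (TT Q (({x | (k : ℝ) / m < yk Q ν y (t + 1) x}).indicator 1)) x ∂ν) := by
        simp only [sum_add_distrib, mul_add, Finset.mul_sum]
    _ ≤ 1 / (1 - ρ) * (2 * (m * Real.sqrt N + N)) :=
        mul_le_mul_of_nonneg_left h3 (by positivity)
    _ = 2 / (1 - ρ) * (m * Real.sqrt N + N) := by ring

end Pool.Agent.N939.ME
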