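import Pool.Agent.N692.ME.Hat
import Pool.Agent.N80.ME.Bk
import Pool.Agent.N901.ME.BK2
import Pool.Agent.N644.ME.Ml
import Pool.Agent.N163.ME.En2
import Pool.Agent.N163.ME.Sq
import Pool.Agent.N362.ME.E4
import Pool.Agent.N296.ME.Crf
import Pool.Agent.N383.ME.Crb
import Pool.Agent.N591.ME.CRC
import Pool.Agent.N680.ME.Er
import Pool.Agent.N680.ME.Opb
import Pool.Agent.N939.ME.L14
import Pool.Agent.N939.ME.L25
import Pool.Agent.N749.ME.G1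
import Pool.Agent.N749.ME.G3
import Pool.Agent.N170.ME.G2
import Pool.Agent.N170.ME.Op
import Pool.Agent.N280.ME.Osc
import Pool.Agent.N280.ME.Opc
import Pool.Agent.N897.ME.RS
import Pool.Agent.N558.ME.Zf
import Pool.Agent.N717.ME.Zb
import Pool.Agent.N507.ME.Sm
import Pool.Agent.N507.ME.Sm2
import Pool.Agent.N507.ME.Var
import Pool.Agent.N317.ME.D1
import Pool.Agent.N691.ME.D2
import Pool.Agent.N271.ME.DL
import Pool.Agent.N342.ME.OPa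
import Pool.Agent.N281.ME.PB
import Pool.Agent.N523.ME.LV
import Pool.Agent.N654.ME.CV
import Pool.Agent.N99.ME.Clt
import Pool.Agent.N749.ME.OPF
import Pool.Agent.N749.ME.RS2
import Pool.Agent.N939.ME.Glue
import Pool.Agent.N939.ME.Fin
import Pool.Agent.N939.ME.Fin2

set_option autoImplicit false
open MeasureTheory ProbabilityTheory Filter Topology Finset

namespace Pool.Agent.N939.ME

theorem a_HAT : S_HAT := Pool.Agent.N692.ME.hat
theorem a_TT : S_TT := Pool.Agent.N692.ME.tt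
theorem a_BK1 : S_BK1 := Pool.Agent.N80.ME.bk1 a_TT
theorem a_BK2 : S_BK2 := Pool.Agent.N901.ME.bk2 a_TT a_BK1
theorem a_ML : S_ML := Pool.Agent.N644.ME.ml a_TT
theorem a_EN2 : S_EN2 := Pool.Agent.N163.ME.en2 a_HAT a_TT a_BK1
theorem a_ZF : S_ZF := Pool.Agent.N558.ME.zf a_HAT a_TT
theorem a_ZB : S_ZB := Pool.Agent.N717.ME.zb a_HAT a_TT a_BK1
theorem a_E4 : S_E4 := Pool.Agent.N362.ME.e4 a_HAT a_TT a_BK1 a_EN2 a_ZF a_ZB
theorem a_ON : S_ON := Pool.Agent.N507.ME.on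
theorem a_SM : S_SM := Pool.Agent.N507.ME.sm a_HAT a_TT a_BK1 a_EN2 a_ZF a_ZB
theorem a_VAR : S_VAR := Pool.Agent.N507.ME.var a_HAT a_TT a_BK1 a_EN2 a_ZF a_ZB a_ON
theorem a_CRF : S_CRF := Pool.Agent.N296.ME.crf a_TT
theorem a_CRB : S_CRB := Pool.Agent.N383.ME.crb a_TT a_BK1
theorem a_CRC : S_CRC := Pool.Agent.N591.ME.crc a_TT a_BK2
theorem a_CR : S_CR := glue_CR a_BK2 a_CRF a_CRB a_CRC
theorem a_ER : S_ER := Pool.Agent.N680.ME.er a_TT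
theorem a_OSC : S_OSC := Pool.Agent.N280.ME.osc a_TT a_BK2 a_ML
theorem a_G1 : S_G1 := Pool.Agent.N749.ME.g1 a_TT a_ML
theorem a_G2 : S_G2 := Pool.Agent.N170.ME.g2 a_HAT a_TT
theorem a_RS : S_RS := Pool.Agent.N897.ME.RS.rs
theorem a_RES : S_RES := Pool.Agent.N939.ME.L25.res a_HAT a_TT a_BK1 a_RS
theorem a_D1 : S_D1 := Pool.Agent.N317.ME.d1
theorem a_DL : S_DL := Pool.Agent.N271.ME.DL.dl
theorem a_OPa : S_OPa := Pool.Agent.N342.ME.opa
theorem a_OPb : S_OPb := Pool.Agent.N680.ME.OPB.opb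
theorem a_OPc : S_OPc := Pool.Agent.N280.ME.opc a_DL
theorem a_OP : S_OP := Pool.Agent.N170.ME.op a_DL a_OPa a_OPb a_OPc
theorem a_PB : S_PB := Pool.Agent.N281.ME.pb a_HAT a_TT a_BK1
theorem a_LV : S_LV := Pool.Agent.N523.ME.lv a_HAT a_TT a_BK1 a_BK2 a_E4 a_CR a_ER a_ON
theorem a_OPF : S_OPF := Pool.Agent.N749.ME.opf a_OP
theorem a_RS2 : S_RS2 := Pool.Agent.N749.ME.rs2
theorem a_SQF : S_SQF := Pool.Agent.N163.ME.sqf a_HAT a_TT a_OPF a_RS2 a_PB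
theorem a_SQB : S_SQB := Pool.Agent.N163.ME.sqb a_HAT a_TT a_BK1 a_OPF a_RS2 a_PB

section rest
variable (hENP : S_ENP) (hEN : S_EN) (hUI : S_UI)
include hENP hEN hUI
theorem b_D : S_D := glue_D a_D1 (Pool.Agent.N691.ME.d2 hENP)
theorem b_G3 : S_G3 := Pool.Agent.N749.ME.g3 hENP hEN a_VAR
theorem b_LS : S_LS := Pool.Agent.N939.ME.L14.ls a_BK2 hENP hEN a_LV
theorem b_CV : S_CV := Pool.Agent.N654.MECV.cv a_TT a_BK2 a_ML (b_LS hENP hEN hUI) hUI a_OSC a_G1 a_G2 (b_G3 hENP hEN hUI)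
theorem b_CLT : S_CLT := Pool.Agent.N99.ME.clt a_TT a_ML hUI (b_CV hENP hEN hUI) a_G1 a_G2 (b_G3 hENP hEN hUI)
end rest

end Pool.Agent.N939.ME
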