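import Mathlib

/-!
PROJECT ME (helper939): the central limit theorem for ergodic stationary Markov chains under
two-sided resolvent square-integrability (MP_bedcbf_pr = S19611, MP_cd27db_pr).  Definitions.
-/

set_option autoImplicit false
open MeasureTheory ProbabilityTheory Filter Topology
open scoped Classical

namespace Pool.Agent.N939.ME

/-- the forward operator `T h (x) = ∫ h dQ(x)` -/
noncomputable def TT {S : Type} [MeasurableSpace S] (Q : Kernel S S) (h : S → ℝ) : S → ℝ :=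
  fun x => ∫ y, h y ∂(Q x)

/-- `b` is (a measurable version of) the adjoint `Q* a` in `L²(ν)` -/
def IsBk {S : Type} [MeasurableSpace S] (Q : Kernel S S) (ν : Measure S) (a b : S → ℝ) : Prop :=
  Measurable b ∧ MemLp b 2 ν ∧
    ∀ g : S → ℝ, Measurable g → MemLp g 2 ν → ∫ x, b x * g x ∂ν = ∫ x, a x * TT Q g x ∂ν

/-- the adjoint operator (a version) -/
noncomputable def bk {S : Type} [MeasurableSpace S] (Q : Kernel S S) (ν : Measure S)
    (a : S → ℝ) : S → ℝ :=
  if h : ∃ b, IsBk Q ν a b then h.choose else 0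

/-- the adjoint operator truncated to `[0,1]` -/
noncomputable def bk01 {S : Type} [MeasurableSpace S] (Q : Kernel S S) (ν : Measure S)
    (a : S → ℝ) : S → ℝ := fun x => max 0 (min 1 (bk Q ν a x))

/-- Lebesgue measure on `(0,1)` -/
noncomputable def lam : Measure ℝ := volume.restrict (Set.Ioo (0:ℝ) 1)

/-- the invariant measure of the hat chain on `ℝ × S` -/
noncomputable def nuh {S : Type} [MeasurableSpace S] (ν : Measure S) : Measure (ℝ × S) :=
  lam.prod ν

/-- the hat kernel on `ℝ × S`: the first coordinate `r` is kept, the second moves by `Q` -/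
noncomputable def Qh {S : Type} [MeasurableSpace S] (Q : Kernel S S) :
    Kernel (ℝ × S) (ℝ × S) :=
  (Kernel.deterministic (Prod.fst : ℝ × S → ℝ) measurable_fst) ×ₖ
    (Q.comap (Prod.snd : ℝ × S → S) measurable_snd)

instance : IsProbabilityMeasure lam := by
  unfold lam
  refine ⟨?_⟩
  simp

instance {S : Type} [MeasurableSpace S] (ν : Measure S) [IsProbabilityMeasure ν] :
    IsProbabilityMeasure (nuh ν) := by
  unfold nuh; infer_instance

instance {S : Type} [MeasurableSpace S] (Q : Kernel S S) [IsMarkovKernel Q] :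
    IsMarkovKernel (Qh Q) := by
  unfold Qh; infer_instance

/-- resolvent data: `Φ = f + r T Φ`, `Ψ = f + r Q* Ψ`, both in `L²(dr ⊗ ν)` -/
structure Res {S : Type} [MeasurableSpace S] (Q : Kernel S S) (ν : Measure S) (f : S → ℝ)
    (Φ Ψ : ℝ × S → ℝ) : Prop where
  mf : Measurable f
  lf : MemLp f 2 ν
  mΦ : Measurable Φ
  mΨ : Measurable Ψ
  lΦ : MemLp Φ 2 (nuh ν)
  lΨ : MemLp Ψ 2 (nuh ν)
  eΦ : ∀ᵐ p ∂(nuh ν), Φ p = f p.2 + p.1 * TT (Qh Q) Φ p
  eΨ : ∀ᵐ p ∂(nuh ν), Ψ p = f p.2 + p.1 * bk (Qh Q) (nuh ν) Ψ p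

/-- the limiting variance -/
noncomputable def sg {S : Type} [MeasurableSpace S] (Q : Kernel S S) (ν : Measure S)
    (f : S → ℝ) (Φ Ψ : ℝ × S → ℝ) : ℝ :=
  ∫ x, f x ^ 2 ∂ν + 2 * ∫ p, Ψ p * TT (Qh Q) Φ p ∂(nuh ν)

/-- `Υ(x) = f(x)² + 2 ∫ Ψ(r,x) (TΦ)(r,x) dr`, so that `∫ Υ dν = sg` -/
noncomputable def Ups {S : Type} [MeasurableSpace S] (Q : Kernel S S)
    (f : S → ℝ) (Φ Ψ : ℝ × S → ℝ) (x : S) : ℝ :=
  f x ^ 2 + 2 * ∫ r, Ψ (r, x) * TT (Qh Q) Φ (r, x) ∂lam

/-- `∫_{r0 < r < 1} F(r,x)² dr` -/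
noncomputable def sqT {S : Type} (r0 : ℝ) (F : ℝ × S → ℝ) (x : S) : ℝ :=
  ∫ r, (Set.Ioi r0).indicator (fun r => F (r, x) ^ 2) r ∂lam

/-- Markov chain with kernel `Q` and initial law `ν` (exactly as in S19611) -/
structure MC {S : Type} [mS : MeasurableSpace S] (Q : Kernel S S) (ν : Measure S)
    {Ω : Type} [mΩ : MeasurableSpace Ω] (μ : Measure Ω) (X : ℕ → Ω → S) : Prop where
  meas : ∀ i, Measurable (X i)
  init : μ.map (X 0) = ν
  step : ∀ n : ℕ, ∀ A : Set S, MeasurableSet A →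
        condExp (⨆ i ≤ n, MeasurableSpace.comap (X i) mS) μ
          ((X (n+1) ⁻¹' A).indicator (fun _ => (1 : ℝ)))
          =ᵐ[μ] fun ω => (Q (X n ω) A).toReal

/-- the sigma-algebra of `X_0, …, X_n` -/
@[reducible] def FX {S : Type} [mS : MeasurableSpace S] {Ω : Type} (X : ℕ → Ω → S) (n : ℕ) :
    MeasurableSpace Ω := ⨆ i ≤ n, MeasurableSpace.comap (X i) mS

/-- the natural filtration -/
def Fil {S : Type} [mS : MeasurableSpace S] {Ω : Type} [mΩ : MeasurableSpace Ω] (X : ℕ → Ω → S)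
    (hX : ∀ i, Measurable (X i)) : Filtration ℕ mΩ where
  seq := FX X
  mono' := fun _ _ hmn => iSup₂_le fun i hi => le_iSup₂_of_le i (le_trans hi hmn) le_rfl
  le' := fun _ => iSup₂_le fun i _ => (hX i).comap_le

/-- running sum over the current run of times with `b t` -/
noncomputable def run (g : ℕ → ℝ) (b : ℕ → Prop) : ℕ → ℝ
  | 0 => 0
  | t + 1 => if b t then run g b t + g t else 0

/-- energy: the sum over the maximal runs of `b` of the squares of the run sums of `g` -/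
noncomputable def en (g : ℕ → ℝ) (b : ℕ → Prop) (N : ℕ) : ℝ :=
  ∑ t ∈ Finset.range N, if b t then 2 * run g b t * g t + g t ^ 2 else 0

/-- `Kf j s (x) = E[1_{B_s}(X_s) ⋯ 1_{B_{s+j}}(X_{s+j}) f(X_{s+j}) | X_s = x]` -/
noncomputable def Kf {S : Type} [MeasurableSpace S] (Q : Kernel S S) (f : S → ℝ)
    (B : ℕ → Set S) : ℕ → ℕ → S → ℝ
  | 0, s => (B s).indicator f
  | j + 1, s => (B s).indicator (TT Q (Kf Q f B j (s + 1)))

/-- the expected energy of the runs in `B_t`, in operator form -/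
noncomputable def enu {S : Type} [MeasurableSpace S] (Q : Kernel S S) (ν : Measure S)
    (f : S → ℝ) (B : ℕ → Set S) (N : ℕ) : ℝ :=
  ∑ s ∈ Finset.range N, ∫ x, (B s).indicator (fun y => f y ^ 2) x ∂ν
  + 2 * ∑ s ∈ Finset.range N, ∑ j ∈ Finset.range (N - 1 - s), ∫ x, f x * Kf Q f B (j + 1) s x ∂ν

/-- `gam i z = ∑_{j<i} r^j Kf j z`: forward killed resolvent of length `i` started at time `z` -/
noncomputable def gam {S : Type} [MeasurableSpace S] (Q : Kernel S S) (f : S → ℝ)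
    (B : ℕ → Set S) : ℕ → ℕ → ℝ × S → ℝ
  | 0, _ => fun _ => 0
  | i + 1, z => fun p => (B z).indicator 1 p.2 *
      (f p.2 + p.1 * TT (Qh Q) (gam Q f B i (z + 1)) p)

/-- backward killed resolvent -/
noncomputable def Gst {S : Type} [MeasurableSpace S] (Q : Kernel S S) (ν : Measure S)
    (f : S → ℝ) (B : ℕ → Set S) : ℕ → ℝ × S → ℝ
  | 0 => fun p => (B 0).indicator f p.2
  | t + 1 => fun p => (B (t + 1)).indicator 1 p.2 *
      (f p.2 + p.1 * bk (Qh Q) (nuh ν) (Gst Q ν f B t) p)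

/-- discounted forward exit functional, `i` steps before the end, started at time `t` -/
noncomputable def thf {S : Type} [MeasurableSpace S] (Q : Kernel S S) (ρ : ℝ)
    (B : ℕ → Set S) : ℕ → ℕ → S → ℝ
  | 0, _ => fun _ => 0
  | i + 1, t => (B t).indicator
      (TT Q (fun y => ((B (t + 1))ᶜ).indicator 1 y + ρ * thf Q ρ B i (t + 1) y))

/-- discounted backward exit functional -/
noncomputable def thb {S : Type} [MeasurableSpace S] (Q : Kernel S S) (ν : Measure S) (ρ : ℝ)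
    (B : ℕ → Set S) : ℕ → S → ℝ
  | 0 => fun _ => 0
  | t + 1 => (B (t + 1)).indicator
      (bk Q ν (fun y => ((B t)ᶜ).indicator 1 y + ρ * thb Q ν ρ B t y))

/-- `y_t = (Q*)^t y`, truncated to `[0,1]` -/
noncomputable def yk {S : Type} [MeasurableSpace S] (Q : Kernel S S) (ν : Measure S)
    (y : S → ℝ) (t : ℕ) : S → ℝ := (bk01 Q ν)^[t] y

/-- level sets `{y_t > k/m} ∪ A` -/
def Blev {S : Type} [MeasurableSpace S] (Q : Kernel S S) (ν : Measure S)
    (y : S → ℝ) (A : Set S) (m k : ℕ) (t : ℕ) : Set S :=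
  {x | (k : ℝ) / m < yk Q ν y t x} ∪ A

/-- running minimum of `g 0, …, g (t-1)` and `1` -/
noncomputable def mn (g : ℕ → ℝ) : ℕ → ℝ
  | 0 => 1
  | t + 1 => min (mn g t) (g t)

/-- `E[f(X_0)+…+f(X_{j-1}) | X_0]` -/
noncomputable def GG {S : Type} [MeasurableSpace S] (Q : Kernel S S) (f : S → ℝ) : ℕ → S → ℝ
  | 0 => fun _ => 0
  | j + 1 => fun x => f x + TT Q (GG Q f j) x

/-- `E[(f(X_0)+…+f(X_{j-1}))² | X_0]` -/
noncomputable def VV {S : Type} [MeasurableSpace S] (Q : Kernel S S) (f : S → ℝ) : ℕ → S → ℝ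
  | 0 => fun _ => 0
  | j + 1 => fun x => f x ^ 2 + 2 * f x * TT Q (GG Q f j) x + TT Q (VV Q f j) x

/-- ergodicity, exactly as in S19611 -/
def Erg {S : Type} [MeasurableSpace S] (Q : Kernel S S) (ν : Measure S) : Prop :=
  ∀ A : Set S, MeasurableSet A →
      (∀ᵐ x ∂ν, Q x A = A.indicator (fun _ => (1 : ENNReal)) x) → ν A = 0 ∨ ν A = 1

/-- partial sums along the path -/
noncomputable def SS {S Ω : Type} (f : S → ℝ) (X : ℕ → Ω → S) (n : ℕ) (ω : Ω) : ℝ :=
  ∑ i ∈ Finset.range n, f (X i ω)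

end Pool.Agent.N939.ME
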