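import Pool.Agent.N939.ME.Enp

set_option autoImplicit false
open MeasureTheory ProbabilityTheory Filter Topology Finset
open scoped Classical

namespace Pool.Agent.N939.ME

/-- indicator of a proposition -/
noncomputable def ip (p : Prop) : ℝ := if p then 1 else 0

theorem run_eq (g : ℕ → ℝ) (b : ℕ → Prop) (t : ℕ) :
    run g b t = ∑ s ∈ range t, g s * ∏ i ∈ Ico s t, ip (b i) := by
  induction t with
  | zero => simp [run]
  | succ t ih =>
    have h1 : run g b (t + 1) = ip (b t) * (run g b t + g t) := by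
      simp only [run, ip]; split_ifs <;> ring
    rw [h1, ih, sum_range_succ, mul_add, mul_sum]
    congr 1
    · apply sum_congr rfl
      intro s hs
      rw [prod_Ico_succ_top (by have := mem_range.1 hs; omega)]
      ring
    · rw [Nat.Ico_succ_singleton, prod_singleton]; ring

/-- product of the indicators from `s` to `s+j` times `g (s+j)` -/
noncomputable def Lq (g : ℕ → ℝ) (b : ℕ → Prop) : ℕ → ℕ → ℝ
  | 0, s => ip (b s) * g s
  | j + 1, s => ip (b s) * Lq g b j (s + 1)

theorem Lq_eq (g : ℕ → ℝ) (b : ℕ → Prop) (j : ℕ) : ∀ s,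
    Lq g b j s = (∏ i ∈ Ico s (s + j + 1), ip (b i)) * g (s + j) := by
  induction j with
  | zero => intro s; simp [Lq]
  | succ j ih =>
    intro s
    rw [Lq, ih, prod_eq_prod_Ico_succ_bot (show s < s + (j + 1) + 1 by omega)]
    have h1 : s + 1 + j + 1 = s + (j + 1) + 1 := by omega
    have h2 : s + 1 + j = s + (j + 1) := by omega
    rw [h1, h2]
    ring

theorem en_expand (g : ℕ → ℝ) (b : ℕ → Prop) (N : ℕ) :
    en g b N = ∑ s ∈ range N, ip (b s) * g s ^ 2
      + 2 * ∑ s ∈ range N, ∑ j ∈ range (N - 1 - s), g s * Lq g b (j + 1) s := by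
  have h1 : ∀ t, (if b t then 2 * run g b t * g t + g t ^ 2 else 0)
      = ip (b t) * g t ^ 2 + 2 * ∑ s ∈ range t, g s * ((∏ i ∈ Ico s (t + 1), ip (b i)) * g t) := by
    intro t
    have h2 : ∑ s ∈ range t, g s * ((∏ i ∈ Ico s (t + 1), ip (b i)) * g t)
        = ip (b t) * (run g b t * g t) := by
      rw [run_eq, sum_mul, mul_sum]
      apply sum_congr rfl
      intro s hs
      rw [prod_Ico_succ_top (by have := mem_range.1 hs; omega)]
      ring
    rw [h2]
    simp only [ip]; split_ifs <;> ring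
  simp only [en, h1, sum_add_distrib, ← mul_sum]
  congr 2
  rw [show (∑ t ∈ range N, ∑ s ∈ range t, g s * ((∏ i ∈ Ico s (t + 1), ip (b i)) * g t))
      = ∑ t ∈ range N, ∑ s ∈ range N, if s < t then
        g s * ((∏ i ∈ Ico s (t + 1), ip (b i)) * g t) else 0 by
    apply sum_congr rfl
    intro t ht
    rw [← sum_filter]
    apply sum_congr _ (fun _ _ => rfl)
    ext s
    simp only [mem_range, mem_filter] at *
    omega]
  rw [sum_comm]
  apply sum_congr rfl
  intro s hs
  rw [← sum_filter]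
  rw [show (range N).filter (fun t => s < t) = Ico (s + 1) N by
    ext t; simp only [mem_filter, mem_range, mem_Ico]; omega]
  rw [sum_Ico_eq_sum_range, show N - (s + 1) = N - 1 - s by omega, mul_sum]
  apply sum_congr rfl
  intro j _
  rw [Lq_eq]
  have h1 : s + 1 + j + 1 = s + (j + 1) + 1 := by omega
  have h2 : s + 1 + j = s + (j + 1) := by omega
  rw [h1, h2]


variable {S : Type} [mS : MeasurableSpace S]

theorem Kf_facts (hTT : S_TT) (Q : Kernel S S) [IsMarkovKernel Q] (ν : Measure S)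
    [IsProbabilityMeasure ν] (hinv : ν.bind Q = ν) (f : S → ℝ) (hf : Measurable f)
    (hf2 : MemLp f 2 ν) (B : ℕ → Set S) (hB : ∀ t, MeasurableSet (B t)) (j : ℕ) :
    ∀ s, Measurable (Kf Q f B j s) ∧ MemLp (Kf Q f B j s) 2 ν := by
  have h := hTT S Q ν hinv
  induction j with
  | zero =>
    intro s
    exact ⟨hf.indicator (hB s), hf2.indicator (hB s)⟩
  | succ j ih =>
    intro s
    exact ⟨(h.1 _ (ih (s + 1)).1).indicator (hB s),
      ((h.2.2.1 _ (ih (s + 1)).2).1).indicator (hB s)⟩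

theorem ip_meas {Ω : Type} [mΩ : MeasurableSpace Ω] {Y : Ω → S} (hY : Measurable Y) {A : Set S}
    (hA : MeasurableSet A) : Measurable (fun ω => ip (Y ω ∈ A)) := by
  unfold ip
  exact Measurable.ite (hY hA) measurable_const measurable_const

theorem ip_bd (p : Prop) : ‖ip p‖ ≤ 1 := by
  unfold ip; split_ifs <;> simp

theorem FX_X {Ω : Type} (X : ℕ → Ω → S) (n : ℕ) : Measurable[FX X n] (X n) := by
  have : MeasurableSpace.comap (X n) mS ≤ FX X n :=
    le_iSup₂_of_le (f := fun i (_ : i ≤ n) => MeasurableSpace.comap (X i) mS) n le_rfl le_rfl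
  exact (comap_measurable (X n)).mono this le_rfl

theorem FX_mono {Ω : Type} (X : ℕ → Ω → S) {m n : ℕ} (h : m ≤ n) : FX X m ≤ FX X n :=
  iSup₂_le fun i hi => le_iSup₂_of_le i (le_trans hi h) le_rfl

theorem path_int (hTT : S_TT) (hML : S_ML) (Q : Kernel S S) [IsMarkovKernel Q] (ν : Measure S)
    [IsProbabilityMeasure ν] (hinv : ν.bind Q = ν) {Ω : Type} [mΩ : MeasurableSpace Ω]
    (μ : Measure Ω) [IsProbabilityMeasure μ] (X : ℕ → Ω → S) (hMC : MC Q ν μ X)
    (f : S → ℝ) (hf : Measurable f)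
    (hf2 : MemLp f 2 ν) (B : ℕ → Set S) (hB : ∀ t, MeasurableSet (B t)) (j : ℕ) :
    ∀ (s : ℕ) (Z : Ω → ℝ), Measurable[FX X s] Z → MemLp Z 2 μ →
      Integrable (fun ω => Z ω * Lq (fun t => f (X t ω)) (fun t => X t ω ∈ B t) j s) μ ∧
      ∫ ω, Z ω * Lq (fun t => f (X t ω)) (fun t => X t ω ∈ B t) j s ∂μ
        = ∫ ω, Z ω * Kf Q f B j s (X s ω) ∂μ := by
  obtain ⟨hmap, hce, hpull⟩ := hML S Q ν hinv Ω μ X hMC
  have hFle : ∀ n, FX X n ≤ mΩ := fun n => iSup₂_le fun i _ => (hMC.meas i).comap_le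
  have hXL2 : ∀ (g : S → ℝ), Measurable g → MemLp g 2 ν → ∀ n,
      MemLp (fun ω => g (X n ω)) 2 μ := by
    intro g hg hg2 n
    have := hmap n
    rw [← this] at hg2
    exact hg2.comp_of_map (hMC.meas n).aemeasurable
  induction j with
  | zero =>
    intro s Z hZ hZ2
    have h1 : ∀ ω, Z ω * Lq (fun t => f (X t ω)) (fun t => X t ω ∈ B t) 0 s
        = Z ω * Kf Q f B 0 s (X s ω) := by
      intro ω
      simp only [Lq, Kf, ip, Set.indicator]
      split_ifs <;> simp
    simp only [h1]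
    refine ⟨?_, trivial⟩
    have := hXL2 _ (Kf_facts hTT Q ν hinv f hf hf2 B hB 0 s).1
      (Kf_facts hTT Q ν hinv f hf hf2 B hB 0 s).2 s
    exact hZ2.integrable_mul this
  | succ j ih =>
    intro s Z hZ hZ2
    set Z' : Ω → ℝ := fun ω => ip (X s ω ∈ B s) * Z ω with hZ'
    have hZ'm : Measurable[FX X s] Z' := by
      refine Measurable.mul ?_ hZ
      exact @ip_meas S mS Ω (FX X s) (X s) (FX_X X s) (B s) (hB s)
    have hZ'2 : MemLp Z' 2 μ := by
      refine hZ2.of_le ((hZ'm.mono (hFle s) le_rfl).aestronglyMeasurable) ?_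
      refine Eventually.of_forall fun ω => ?_
      rw [hZ', norm_mul]
      calc _ ≤ 1 * ‖Z ω‖ := by gcongr; exact ip_bd _
        _ = _ := one_mul _
    have hK := Kf_facts hTT Q ν hinv f hf hf2 B hB j (s + 1)
    obtain ⟨h1, h2⟩ := ih (s + 1) Z' (hZ'm.mono (FX_mono X (Nat.le_succ s)) le_rfl) hZ'2
    have e1 : ∀ ω, Z ω * Lq (fun t => f (X t ω)) (fun t => X t ω ∈ B t) (j + 1) s
        = Z' ω * Lq (fun t => f (X t ω)) (fun t => X t ω ∈ B t) j (s + 1) := by
      intro ω; simp only [Lq, hZ']; ring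
    simp only [e1]
    refine ⟨h1, ?_⟩
    rw [h2]
    have hint : Integrable (fun ω => Z' ω * Kf Q f B j (s + 1) (X (s + 1) ω)) μ :=
      hZ'2.integrable_mul (hXL2 _ hK.1 hK.2 (s + 1))
    have h3 := (hpull s (Kf Q f B j (s + 1)) Z' hK.1 (hK.2.integrable (by norm_num)) hZ'm hint).2
    rw [h3]
    apply integral_congr_ae
    refine Eventually.of_forall fun ω => ?_
    simp only [hZ', Kf, ip, Set.indicator]
    split_ifs <;> ring

theorem en1 (hTT : S_TT) (hML : S_ML) : S_EN := by
  intro S mS Q _ ν _ hinv Ω mΩ μ _ X hMC f hf hf2 B hB N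
  obtain ⟨hmap, hce, hpull⟩ := hML S Q ν hinv Ω μ X hMC
  have hXL2 : ∀ (g : S → ℝ), Measurable g → MemLp g 2 ν → ∀ n,
      MemLp (fun ω => g (X n ω)) 2 μ := by
    intro g hg hg2 n
    have := hmap n
    rw [← this] at hg2
    exact hg2.comp_of_map (hMC.meas n).aemeasurable
  have hA : ∀ s, Integrable (fun ω => ip (X s ω ∈ B s) * f (X s ω) ^ 2) μ ∧
      ∫ ω, ip (X s ω ∈ B s) * f (X s ω) ^ 2 ∂μ = ∫ x, (B s).indicator (fun y => f y ^ 2) x ∂ν := by
    intro s
    have e : ∀ ω, ip (X s ω ∈ B s) * f (X s ω) ^ 2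
        = (B s).indicator (fun y => f y ^ 2) (X s ω) := by
      intro ω; simp only [ip, Set.indicator]; split_ifs <;> ring
    simp only [e]
    have hm : Measurable ((B s).indicator (fun y => f y ^ 2)) := (hf.pow_const 2).indicator (hB s)
    constructor
    · have h1 : Integrable ((B s).indicator (fun y => f y ^ 2)) (μ.map (X s)) := by
        rw [hmap s]; exact hf2.integrable_sq.indicator (hB s)
      exact h1.comp_measurable (hMC.meas s)
    · rw [← hmap s, integral_map (hMC.meas s).aemeasurable hm.aestronglyMeasurable]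
  have hBpart : ∀ s j, Integrable (fun ω => f (X s ω) *
      Lq (fun t => f (X t ω)) (fun t => X t ω ∈ B t) (j + 1) s) μ ∧
      ∫ ω, f (X s ω) * Lq (fun t => f (X t ω)) (fun t => X t ω ∈ B t) (j + 1) s ∂μ
        = ∫ x, f x * Kf Q f B (j + 1) s x ∂ν := by
    intro s j
    have h := path_int hTT hML Q ν hinv μ X hMC f hf hf2 B hB (j + 1) s (fun ω => f (X s ω))
      (hf.comp (FX_X X s)) (hXL2 f hf hf2 s)
    refine ⟨h.1, ?_⟩
    rw [h.2]
    have hm : Measurable (fun x => f x * Kf Q f B (j + 1) s x) :=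
      hf.mul (Kf_facts hTT Q ν hinv f hf hf2 B hB (j + 1) s).1
    have := integral_map (μ := μ) (hMC.meas s).aemeasurable (f := fun x => f x * Kf Q f B (j + 1) s x)
      hm.aestronglyMeasurable
    rw [hmap s] at this
    exact this.symm
  simp only [en_expand]
  have i1 : Integrable (fun ω => ∑ s ∈ range N, ip (X s ω ∈ B s) * f (X s ω) ^ 2) μ :=
    integrable_finsetSum _ fun s _ => (hA s).1
  have i2 : Integrable (fun ω => ∑ s ∈ range N, ∑ j ∈ range (N - 1 - s), f (X s ω) *
      Lq (fun t => f (X t ω)) (fun t => X t ω ∈ B t) (j + 1) s) μ :=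
    integrable_finsetSum _ fun s _ => integrable_finsetSum _ fun j _ => (hBpart s j).1
  refine ⟨i1.add (i2.const_mul 2), ?_⟩
  rw [integral_add i1 (i2.const_mul 2), integral_const_mul, integral_finsetSum _ fun s _ => (hA s).1,
    integral_finsetSum _ fun s _ => integrable_finsetSum _ fun j _ => (hBpart s j).1]
  unfold enu
  congr 1
  · exact sum_congr rfl fun s _ => (hA s).2
  · congr 1
    apply sum_congr rfl
    intro s _
    rw [integral_finsetSum _ fun j _ => (hBpart s j).1]
    exact sum_congr rfl fun j _ => (hBpart s j).2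

end Pool.Agent.N939.ME
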