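import Pool.Agent.N939.ME.Stm2

set_option autoImplicit false
open MeasureTheory ProbabilityTheory Filter Topology Finset
open scoped Classical

namespace Pool.Agent.N939.ME

theorem run_sq (g : ℕ → ℝ) (b : ℕ → Prop) (t : ℕ) :
    (if b t then 2 * run g b t * g t + g t ^ 2 else 0)
      = run g b (t + 1) ^ 2 - run g b t ^ 2 + (if b t then 0 else run g b t ^ 2) := by
  simp only [run]
  split_ifs <;> ring

theorem en_eq (g : ℕ → ℝ) (b : ℕ → Prop) (N : ℕ) :
    en g b N = run g b N ^ 2 + ∑ t ∈ range N, (if b t then 0 else run g b t ^ 2) := by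
  induction N with
  | zero => simp [en, run]
  | succ N ih =>
    have h1 : en g b (N + 1) = en g b N + (if b N then 2 * run g b N * g N + g N ^ 2 else 0) := by
      simp [en, sum_range_succ]
    rw [h1, ih, run_sq, sum_range_succ]
    ring

theorem run_all (g : ℕ → ℝ) (b : ℕ → Prop) (N : ℕ) (h : ∀ t < N, b t) :
    run g b N = ∑ t ∈ range N, g t := by
  induction N with
  | zero => simp [run]
  | succ N ih =>
    rw [sum_range_succ, ← ih (fun t ht => h t (by omega))]
    simp [run, h N (by omega)]

theorem enp : S_ENP := by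
  intro g b N
  refine ⟨en_eq g b N, ?_, ?_⟩
  · rw [en_eq]
    have : 0 ≤ ∑ t ∈ range N, (if b t then 0 else run g b t ^ 2) := by
      apply sum_nonneg
      intro t _
      split_ifs <;> positivity
    positivity
  · intro h
    have h2 : ∑ t ∈ range N, (if b t then 0 else run g b t ^ 2) = 0 := by
      apply sum_eq_zero
      intro t ht
      rw [if_pos (h t (mem_range.1 ht))]
    rw [en_eq, run_all g b N h, h2, add_zero]

end Pool.Agent.N939.ME
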