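import Pool.Agent.N939.ME.All
import Pool.Agent.N939.ME.En1
import Pool.Agent.N523.ME.UI

/-!
PROJECT ME (helper939), assembly: the central limit theorem for ergodic stationary Markov chains
under square-summability of the forward and backward projections (MP_bedcbf_pr) and under the
two-sided square root conditions (MP_cd27db_pr).
-/

set_option autoImplicit false
open MeasureTheory ProbabilityTheory Filter Topology

namespace Pool.Agent.N939.ME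

theorem a_ENP : S_ENP := enp
theorem a_EN : S_EN := en1 a_TT a_ML
theorem a_D : S_D := glue_D a_D1 (Pool.Agent.N691.ME.d2 a_ENP)
theorem a_G3 : S_G3 := Pool.Agent.N749.ME.g3 a_ENP a_EN a_VAR
theorem a_UI : S_UI := Pool.Agent.N523.ME.ui a_HAT a_TT a_ML a_EN a_SM a_ON a_D a_G1 a_G2 a_G3
theorem a_CLT : S_CLT := b_CLT a_ENP a_EN a_UI

theorem main_clt :
  ∀ (S : Type) [mS : MeasurableSpace S] (Q : Kernel S S) [IsMarkovKernel Q]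
    (ν : Measure S) [IsProbabilityMeasure ν] (f : S → ℝ),
    ν.bind Q = ν →
    (∀ A : Set S, MeasurableSet A →
      (∀ᵐ x ∂ν, Q x A = A.indicator (fun _ => (1 : ENNReal)) x) → ν A = 0 ∨ ν A = 1) →
    Measurable f → MemLp f 2 ν → ∫ x, f x ∂ν = 0 →
    Summable (fun k : ℕ =>
      ∫ x, ((fun (h : S → ℝ) => fun y => ∫ z, h z ∂(Q y))^[k+1] f x) ^ 2 ∂ν) →
    (∃ c : ℕ → ℝ, Summable c ∧ ∀ k : ℕ, ∀ g : S → ℝ, Measurable g →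
        (∃ C : ℝ, ∀ x, |g x| ≤ C) → ∫ x, g x ^ 2 ∂ν ≤ 1 →
        (∫ x, f x * (fun (h : S → ℝ) => fun y => ∫ z, h z ∂(Q y))^[k+1] g x ∂ν) ^ 2 ≤ c k) →
    ∀ (Ω : Type) [mΩ : MeasurableSpace Ω] (μ : Measure Ω) [IsProbabilityMeasure μ]
      (X : ℕ → Ω → S),
      (∀ i, Measurable (X i)) → μ.map (X 0) = ν →
      (∀ n : ℕ, ∀ A : Set S, MeasurableSet A →
        condExp (⨆ i ≤ n, MeasurableSpace.comap (X i) mS) μ
          ((X (n+1) ⁻¹' A).indicator (fun _ => (1 : ℝ)))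
          =ᵐ[μ] fun ω => (Q (X n ω) A).toReal) →
      ∃ v : NNReal, ∀ g : ℝ → ℝ, Continuous g → (∃ C : ℝ, ∀ x, |g x| ≤ C) →
        Filter.Tendsto
          (fun n : ℕ => ∫ ω, g ((Real.sqrt n)⁻¹ * ∑ i ∈ Finset.range n, f (X i ω)) ∂μ)
          Filter.atTop (nhds (∫ x, g x ∂(gaussianReal 0 v))) :=
  fin_main a_CLT a_RES

theorem main_sq :
  ∀ (S : Type) [mS : MeasurableSpace S] (Q : Kernel S S) [IsMarkovKernel Q]
    (ν : Measure S) [IsProbabilityMeasure ν], ν.bind Q = ν →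
    (∀ h : S → ℝ, Measurable h → MemLp h 2 ν → (∀ᵐ x ∂ν, ∫ y, h y ∂(Q x) = h x) →
      ∃ c : ℝ, ∀ᵐ x ∂ν, h x = c) →
    ∀ δ : ℕ → ℝ,
    (∀ x : ℝ, |x| < 1 → HasSum (fun n => δ n * x ^ (n + 1)) (1 - Real.sqrt (1 - x))) →
    ∀ f : S → ℝ, Measurable f → MemLp f 2 ν →
    (∃ g : ℕ → S → ℝ, (∀ n, Measurable (g n) ∧ MemLp (g n) 2 ν) ∧
      (∀ n, ∀ᵐ x ∂ν, g (n + 1) x = ∫ y, g n y ∂(Q x)) ∧
      Tendsto (fun N : ℕ => ∫ x, (g 0 x - ∑ n ∈ Finset.range N, δ n * g (n + 1) x - f x) ^ 2 ∂ν)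
        atTop (𝓝 0)) →
    (∃ b : ℕ → S → ℝ, (∀ n, Measurable (b n) ∧ MemLp (b n) 2 ν) ∧
      (∀ n, ∀ h : S → ℝ, Measurable h → MemLp h 2 ν →
        ∫ x, b (n + 1) x * h x ∂ν = ∫ x, b n x * (∫ y, h y ∂(Q x)) ∂ν) ∧
      Tendsto (fun N : ℕ => ∫ x, (b 0 x - ∑ n ∈ Finset.range N, δ n * b (n + 1) x - f x) ^ 2 ∂ν)
        atTop (𝓝 0)) →
    ∃ v : NNReal, ∀ (Ω : Type) [mΩ : MeasurableSpace Ω] (μ : Measure Ω)
      [IsProbabilityMeasure μ] (ξ : ℤ → Ω → S),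
      (∀ i, Measurable (ξ i)) → (∀ i, μ.map (ξ i) = ν) →
      (∀ n : ℤ, ∀ A : Set S, MeasurableSet A →
        condExp (⨆ (i : ℤ) (_ : i ≤ n), MeasurableSpace.comap (ξ i) mS) μ
          ((ξ (n+1) ⁻¹' A).indicator (fun _ => (1 : ℝ)))
          =ᵐ[μ] fun ω => (Q (ξ n ω) A).toReal) →
      Tendsto (fun n : ℕ => (∫ ω, (∑ i ∈ Finset.Icc 1 n, f (ξ (i : ℤ) ω)) ^ 2 ∂μ) / n)
        atTop (𝓝 v) ∧
      ∀ φ : ℝ → ℝ, Continuous φ → (∃ C : ℝ, ∀ x, |φ x| ≤ C) →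
        Tendsto
          (fun n : ℕ => ∫ ω, φ ((∑ i ∈ Finset.Icc 1 n, f (ξ (i : ℤ) ω)) / Real.sqrt n) ∂μ)
          atTop (𝓝 (∫ x, φ x ∂(gaussianReal 0 v))) :=
  fin_sq a_TT a_CLT a_G3 a_SQF a_SQB

end Pool.Agent.N939.ME
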