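import Pool.Agent.N939.ME.Defs

/-!
PROJECT ME (helper939): statements of the steps.
-/

set_option autoImplicit false
open MeasureTheory ProbabilityTheory Filter Topology Finset
open scoped Classical

namespace Pool.Agent.N939.ME

/-- facts on the hat chain -/
def S_HAT : Prop :=
  ∀ (S : Type) [MeasurableSpace S] (Q : Kernel S S) [IsMarkovKernel Q] (ν : Measure S)
    [IsProbabilityMeasure ν], ν.bind Q = ν →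
  (∀ (h : ℝ × S → ℝ) (r : ℝ) (x : S), TT (Qh Q) h (r, x) = ∫ y, h (r, y) ∂(Q x)) ∧
  (nuh ν).bind (Qh Q) = nuh ν

/-- facts on the forward operator -/
def S_TT : Prop :=
  ∀ (S : Type) [MeasurableSpace S] (Q : Kernel S S) [IsMarkovKernel Q] (ν : Measure S)
    [IsProbabilityMeasure ν], ν.bind Q = ν →
  (∀ h : S → ℝ, Measurable h → Measurable (TT Q h)) ∧
  (∀ h : S → ℝ, Integrable h ν → Integrable (TT Q h) ν ∧ ∫ x, TT Q h x ∂ν = ∫ x, h x ∂ν ∧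
      (∀ᵐ x ∂ν, Integrable h (Q x)) ∧ ∀ᵐ x ∂ν, |TT Q h x| ≤ TT Q (fun y => |h y|) x) ∧
  (∀ h : S → ℝ, MemLp h 2 ν → MemLp (TT Q h) 2 ν ∧
      ∫ x, TT Q h x ^ 2 ∂ν ≤ ∫ x, h x ^ 2 ∂ν ∧
      (∀ᵐ x ∂ν, MemLp h 2 (Q x)) ∧ ∀ᵐ x ∂ν, TT Q h x ^ 2 ≤ TT Q (fun y => h y ^ 2) x) ∧
  (∀ h h' : S → ℝ, h =ᵐ[ν] h' → TT Q h =ᵐ[ν] TT Q h') ∧
  (∀ h h' : S → ℝ, Integrable h ν → Integrable h' ν → (∀ᵐ x ∂ν, h x ≤ h' x) →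
      ∀ᵐ x ∂ν, TT Q h x ≤ TT Q h' x) ∧
  (∀ h h' : S → ℝ, Integrable h ν → Integrable h' ν →
      TT Q (fun y => h y + h' y) =ᵐ[ν] fun x => TT Q h x + TT Q h' x)

/-- facts on the adjoint operator -/
def S_BK1 : Prop :=
  ∀ (S : Type) [MeasurableSpace S] (Q : Kernel S S) [IsMarkovKernel Q] (ν : Measure S)
    [IsProbabilityMeasure ν], ν.bind Q = ν →
  (∀ a : S → ℝ, MemLp a 2 ν → IsBk Q ν a (bk Q ν a)) ∧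
  (∀ a : S → ℝ, Measurable (bk Q ν a)) ∧
  (∀ a b b' : S → ℝ, IsBk Q ν a b → IsBk Q ν a b' → b =ᵐ[ν] b') ∧
  (∀ a : S → ℝ, MemLp a 2 ν → ∫ x, bk Q ν a x ^ 2 ∂ν ≤ ∫ x, a x ^ 2 ∂ν) ∧
  (∀ a u : S → ℝ, MemLp a 2 ν → Measurable u → (∀ x, 0 ≤ u x) → (∃ C : ℝ, ∀ x, u x ≤ C) →
      ∫ x, u x * bk Q ν a x ^ 2 ∂ν ≤ ∫ x, TT Q u x * a x ^ 2 ∂ν) ∧
  (∀ a a' : S → ℝ, MemLp a 2 ν → MemLp a' 2 ν →
      bk Q ν (fun x => a x + a' x) =ᵐ[ν] fun x => bk Q ν a x + bk Q ν a' x) ∧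
  (∀ (a : S → ℝ) (c : ℝ), MemLp a 2 ν →
      bk Q ν (fun x => c * a x) =ᵐ[ν] fun x => c * bk Q ν a x) ∧
  (∀ a a' : S → ℝ, a =ᵐ[ν] a' → bk Q ν a =ᵐ[ν] bk Q ν a') ∧
  (∀ a a' : S → ℝ, MemLp a 2 ν → MemLp a' 2 ν → (∀ᵐ x ∂ν, a x ≤ a' x) →
      ∀ᵐ x ∂ν, bk Q ν a x ≤ bk Q ν a' x)

/-- facts on the truncated adjoint operator on functions with values in `[0,1]` -/
def S_BK2 : Prop :=
  ∀ (S : Type) [MeasurableSpace S] (Q : Kernel S S) [IsMarkovKernel Q] (ν : Measure S)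
    [IsProbabilityMeasure ν], ν.bind Q = ν →
  (∀ a : S → ℝ, Measurable a → (∀ x, 0 ≤ a x ∧ a x ≤ 1) → bk01 Q ν a =ᵐ[ν] bk Q ν a) ∧
  (∀ a g : S → ℝ, Measurable a → (∀ x, 0 ≤ a x ∧ a x ≤ 1) → Integrable g ν →
      ∫ x, bk01 Q ν a x * g x ∂ν = ∫ x, a x * TT Q g x ∂ν) ∧
  (∀ (y : S → ℝ) (t : ℕ), Measurable y → (∀ x, 0 ≤ y x ∧ y x ≤ 1) →
      Measurable (yk Q ν y t) ∧ ∀ x, 0 ≤ yk Q ν y t x ∧ yk Q ν y t x ≤ 1) ∧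
  (∀ (y g : S → ℝ) (t : ℕ), Measurable y → (∀ x, 0 ≤ y x ∧ y x ≤ 1) → Integrable g ν →
      ∫ x, yk Q ν y t x * g x ∂ν = ∫ x, y x * (TT Q)^[t] g x ∂ν)

/-- Markov property -/
def S_ML : Prop :=
  ∀ (S : Type) [MeasurableSpace S] (Q : Kernel S S) [IsMarkovKernel Q] (ν : Measure S)
    [IsProbabilityMeasure ν], ν.bind Q = ν →
  ∀ (Ω : Type) [MeasurableSpace Ω] (μ : Measure Ω) [IsProbabilityMeasure μ] (X : ℕ → Ω → S),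
    MC Q ν μ X →
  (∀ n, μ.map (X n) = ν) ∧
  (∀ (n : ℕ) (g : S → ℝ), Measurable g → Integrable g ν →
      μ[fun ω => g (X (n + 1) ω) | FX X n] =ᵐ[μ] fun ω => TT Q g (X n ω)) ∧
  (∀ (n : ℕ) (g : S → ℝ) (Z : Ω → ℝ), Measurable g → Integrable g ν → Measurable[FX X n] Z →
      Integrable (fun ω => Z ω * g (X (n + 1) ω)) μ →
      Integrable (fun ω => Z ω * TT Q g (X n ω)) μ ∧
      ∫ ω, Z ω * g (X (n + 1) ω) ∂μ = ∫ ω, Z ω * TT Q g (X n ω) ∂μ)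

/-- path facts on the energy of runs -/
def S_ENP : Prop :=
  ∀ (g : ℕ → ℝ) (b : ℕ → Prop) (N : ℕ),
    en g b N = run g b N ^ 2 + ∑ t ∈ range N, (if b t then 0 else run g b t ^ 2) ∧
    0 ≤ en g b N ∧ ((∀ t < N, b t) → en g b N = (∑ t ∈ range N, g t) ^ 2)

/-- expected energy -/
def S_EN : Prop :=
  ∀ (S : Type) [MeasurableSpace S] (Q : Kernel S S) [IsMarkovKernel Q] (ν : Measure S)
    [IsProbabilityMeasure ν], ν.bind Q = ν →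
  ∀ (Ω : Type) [MeasurableSpace Ω] (μ : Measure Ω) [IsProbabilityMeasure μ] (X : ℕ → Ω → S),
    MC Q ν μ X → ∀ f : S → ℝ, Measurable f → MemLp f 2 ν →
    ∀ B : ℕ → Set S, (∀ t, MeasurableSet (B t)) → ∀ N : ℕ,
    Integrable (fun ω => en (fun t => f (X t ω)) (fun t => X t ω ∈ B t) N) μ ∧
    ∫ ω, en (fun t => f (X t ω)) (fun t => X t ω ∈ B t) N ∂μ = enu Q ν f B N

/-- resolvent formula for the energy -/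
def S_EN2 : Prop :=
  ∀ (S : Type) [MeasurableSpace S] (Q : Kernel S S) [IsMarkovKernel Q] (ν : Measure S)
    [IsProbabilityMeasure ν], ν.bind Q = ν →
  ∀ f : S → ℝ, Measurable f → MemLp f 2 ν →
    ∀ B : ℕ → Set S, (∀ t, MeasurableSet (B t)) → ∀ N : ℕ,
    enu Q ν f B N = ∑ s ∈ range N, ∫ x, (B s).indicator (fun y => f y ^ 2) x ∂ν
      + 2 * ∑ t ∈ range (N - 1),
        ∫ p, Gst Q ν f B t p * TT (Qh Q) (gam Q f B (N - 1 - t) (t + 1)) p ∂(nuh ν)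

/-- forward killed resolvent against the full resolvent -/
def S_ZF : Prop :=
  ∀ (S : Type) [MeasurableSpace S] (Q : Kernel S S) [IsMarkovKernel Q] (ν : Measure S)
    [IsProbabilityMeasure ν], ν.bind Q = ν →
  ∀ (f : S → ℝ) (Φ Ψ : ℝ × S → ℝ), Res Q ν f Φ Ψ →
  ∀ M ε r0 : ℝ, 0 ≤ M → 0 ≤ ε → 0 ≤ r0 → r0 < 1 →
  ∀ B : ℕ → Set S, (∀ t, MeasurableSet (B t)) →
    (∀ t, ∀ᵐ x ∂ν, x ∉ B t → sqT 0 Φ x ≤ M ∧ sqT r0 Φ x ≤ ε) →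
  ∀ A : Set S, MeasurableSet A → ∀ N : ℕ,
    ∑ t ∈ range (N - 1), ∫ p, ((B t).indicator 1 p.2 *
        (TT (Qh Q) Φ p - TT (Qh Q) (gam Q f B (N - 1 - t) (t + 1)) p)) ^ 2 ∂(nuh ν)
    ≤ 2 * ∑ t ∈ range (N - 1), (M * ν.real (B t ∩ A) +
        ∫ x, (B t \ A).indicator (fun y => ε + M * thf Q (r0 ^ 2) B (N - 1 - t) t y) x ∂ν)
      + 2 * ∫ p, Φ p ^ 2 * ∑ i ∈ range N, p.1 ^ (2 * i) ∂(nuh ν)

/-- backward killed resolvent against the full resolvent -/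
def S_ZB : Prop :=
  ∀ (S : Type) [MeasurableSpace S] (Q : Kernel S S) [IsMarkovKernel Q] (ν : Measure S)
    [IsProbabilityMeasure ν], ν.bind Q = ν →
  ∀ (f : S → ℝ) (Φ Ψ : ℝ × S → ℝ), Res Q ν f Φ Ψ →
  ∀ M ε r0 : ℝ, 0 ≤ M → 0 ≤ ε → 0 ≤ r0 → r0 < 1 →
  ∀ B : ℕ → Set S, (∀ t, MeasurableSet (B t)) →
    (∀ t, ∀ᵐ x ∂ν, x ∉ B t → sqT 0 Ψ x ≤ M ∧ sqT r0 Ψ x ≤ ε) →
  ∀ A : Set S, MeasurableSet A → ∀ N : ℕ,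
    ∑ t ∈ range (N - 1), ∫ p, ((B t).indicator 1 p.2 * Ψ p - Gst Q ν f B t p) ^ 2 ∂(nuh ν)
    ≤ 2 * ∑ t ∈ range (N - 1), (M * ν.real (B t ∩ A) +
        ∫ x, (B t \ A).indicator (fun y => ε + M * thb Q ν (r0 ^ 2) B t y) x ∂ν)
      + 2 * ∫ p, Ψ p ^ 2 * ∑ i ∈ range N, p.1 ^ (2 * i) ∂(nuh ν)

/-- the energy of runs in general sets, main inequality -/
def S_E4 : Prop :=
  ∀ (S : Type) [MeasurableSpace S] (Q : Kernel S S) [IsMarkovKernel Q] (ν : Measure S)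
    [IsProbabilityMeasure ν], ν.bind Q = ν →
  ∀ (f : S → ℝ) (Φ Ψ : ℝ × S → ℝ), Res Q ν f Φ Ψ →
  ∀ M ε r0 l : ℝ, 0 ≤ M → 0 ≤ ε → 0 ≤ r0 → r0 < 1 → 0 < l →
  ∀ B : ℕ → Set S, (∀ t, MeasurableSet (B t)) →
    (∀ t, ∀ᵐ x ∂ν, x ∉ B t → sqT 0 Φ x ≤ M ∧ sqT r0 Φ x ≤ ε) →
    (∀ t, ∀ᵐ x ∂ν, x ∉ B t → sqT 0 Ψ x ≤ M ∧ sqT r0 Ψ x ≤ ε) →
  ∀ A : Set S, MeasurableSet A → ∀ N : ℕ,
    enu Q ν f B N ≤ ∑ t ∈ range N, ∫ x, (B t).indicator (Ups Q f Φ Ψ) x ∂ν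
      + 2 * ∫ p, |Ψ p * TT (Qh Q) Φ p| ∂(nuh ν)
      + l * N * (∫ p, Φ p ^ 2 ∂(nuh ν) + ∫ p, Ψ p ^ 2 ∂(nuh ν))
      + (1 + 1 / l) * (∑ t ∈ range (N - 1), (4 * M * ν.real (B t ∩ A) + 4 * ε
          + 2 * M * (∫ x, (B t \ A).indicator (thf Q (r0 ^ 2) B (N - 1 - t) t) x ∂ν
            + ∫ x, (B t \ A).indicator (thb Q ν (r0 ^ 2) B t) x ∂ν))
        + 2 * ∫ p, (Φ p ^ 2 + Ψ p ^ 2) * ∑ i ∈ range N, p.1 ^ (2 * i) ∂(nuh ν))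

/-- the energy of runs in small sets -/
def S_SM : Prop :=
  ∀ (S : Type) [MeasurableSpace S] (Q : Kernel S S) [IsMarkovKernel Q] (ν : Measure S)
    [IsProbabilityMeasure ν], ν.bind Q = ν →
  ∀ (f : S → ℝ) (Φ Ψ : ℝ × S → ℝ), Res Q ν f Φ Ψ →
  ∀ M : ℝ, 0 ≤ M →
  ∀ B : ℕ → Set S, (∀ t, MeasurableSet (B t)) →
    (∀ t, ∀ᵐ x ∂ν, x ∉ B t → sqT 0 Φ x ≤ M ∧ sqT 0 Ψ x ≤ M) → ∀ N : ℕ,
    enu Q ν f B N ≤ ∑ t ∈ range N, (∫ x, (B t).indicator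
          (fun x => f x ^ 2 + 2 * sqT 0 Ψ x + 2 * sqT 0 (TT (Qh Q) Φ) x) x ∂ν
          + 8 * M * ν.real (B t))
      + 4 * ∫ p, (Φ p ^ 2 + Ψ p ^ 2) * ∑ i ∈ range N, p.1 ^ (2 * i) ∂(nuh ν)

/-- convergence of the normalised variance -/
def S_VAR : Prop :=
  ∀ (S : Type) [MeasurableSpace S] (Q : Kernel S S) [IsMarkovKernel Q] (ν : Measure S)
    [IsProbabilityMeasure ν], ν.bind Q = ν →
  ∀ (f : S → ℝ) (Φ Ψ : ℝ × S → ℝ), Res Q ν f Φ Ψ →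
    Tendsto (fun N : ℕ => enu Q ν f (fun _ => Set.univ) N / N) atTop (𝓝 (sg Q ν f Φ Ψ))

/-- the error terms are `o(N)` -/
def S_ON : Prop :=
  ∀ (S : Type) [MeasurableSpace S] (ν : Measure S) [IsProbabilityMeasure ν]
    (F : ℝ × S → ℝ), Integrable F (nuh ν) →
    Tendsto (fun N : ℕ => (∫ p, F p * ∑ i ∈ range N, p.1 ^ (2 * i) ∂(nuh ν)) / N) atTop (𝓝 0)

/-- crossings of levels by backward martingales -/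
def S_CR : Prop :=
  ∀ (S : Type) [MeasurableSpace S] (Q : Kernel S S) [IsMarkovKernel Q] (ν : Measure S)
    [IsProbabilityMeasure ν], ν.bind Q = ν →
  ∀ y : S → ℝ, Measurable y → (∀ x, 0 ≤ y x ∧ y x ≤ 1) →
  ∀ A : Set S, MeasurableSet A → ∀ ρ : ℝ, 0 ≤ ρ → ρ < 1 → ∀ m N : ℕ, 0 < m →
    ∑ k ∈ range m, ∑ t ∈ range (N - 1),
      (∫ x, (Blev Q ν y A m k t \ A).indicator
          (thf Q ρ (Blev Q ν y A m k) (N - 1 - t) t) x ∂ν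
        + ∫ x, (Blev Q ν y A m k t \ A).indicator (thb Q ν ρ (Blev Q ν y A m k) t) x ∂ν)
    ≤ 2 / (1 - ρ) * (m * Real.sqrt N + N)

/-- mean ergodic theorem in `L¹` -/
def S_ER : Prop :=
  ∀ (S : Type) [MeasurableSpace S] (Q : Kernel S S) [IsMarkovKernel Q] (ν : Measure S)
    [IsProbabilityMeasure ν], ν.bind Q = ν → Erg Q ν →
  ∀ h : S → ℝ, Integrable h ν →
    Tendsto (fun n : ℕ => ∫ x, |(∑ t ∈ range n, (TT Q)^[t] h x) / n - ∫ y, h y ∂ν| ∂ν)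
      atTop (𝓝 0)

/-- average energy over the level sets of a backward martingale -/
def S_LV : Prop :=
  ∀ (S : Type) [MeasurableSpace S] (Q : Kernel S S) [IsMarkovKernel Q] (ν : Measure S)
    [IsProbabilityMeasure ν], ν.bind Q = ν → Erg Q ν →
  ∀ (f : S → ℝ) (Φ Ψ : ℝ × S → ℝ), Res Q ν f Φ Ψ →
  ∀ η : ℝ, 0 < η → ∃ (A : Set S) (m h0 : ℕ), MeasurableSet A ∧ 0 < m ∧
    ∀ h : ℕ, h0 ≤ h → ∀ y : S → ℝ, Measurable y → (∀ x, 0 ≤ y x ∧ y x ≤ 1) →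
      ∑ k ∈ range m, enu Q ν f (Blev Q ν y A m k) h
        ≤ m * h * (sg Q ν f Φ Ψ * ∫ x, y x ∂ν + η)

/-- weighted second moment of block sums -/
def S_LS : Prop :=
  ∀ (S : Type) [MeasurableSpace S] (Q : Kernel S S) [IsMarkovKernel Q] (ν : Measure S)
    [IsProbabilityMeasure ν], ν.bind Q = ν → Erg Q ν →
  ∀ (f : S → ℝ) (Φ Ψ : ℝ × S → ℝ), Res Q ν f Φ Ψ →
  ∀ (Ω : Type) [MeasurableSpace Ω] (μ : Measure Ω) [IsProbabilityMeasure μ] (X : ℕ → Ω → S),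
    MC Q ν μ X →
  ∀ η : ℝ, 0 < η → ∃ h0 : ℕ, ∀ h : ℕ, h0 ≤ h → ∀ y : S → ℝ, Measurable y →
    (∀ x, 0 ≤ y x ∧ y x ≤ 1) →
      ∫ ω, mn (fun t => yk Q ν y t (X t ω)) h * SS f X h ω ^ 2 ∂μ
        ≤ h * (sg Q ν f Φ Ψ * ∫ x, y x ∂ν + η)

/-- a martingale with bounded conditional future variance: truncation and fourth moment -/
def S_D1 : Prop :=
  ∀ (Ω : Type) [mΩ : MeasurableSpace Ω] (μ : Measure Ω) [IsProbabilityMeasure μ]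
    (H : Filtration ℕ mΩ) (n : ℕ) (m : ℕ → Ω → ℝ) (b K : ℝ), 0 ≤ b → 0 ≤ K →
    Martingale m H μ → (∀ k, MemLp (m k) 2 μ) →
    (∀ k, k ≤ n → ∀ᵐ ω ∂μ, (μ[fun ω => (m n ω - m k ω) ^ 2 | H k]) ω ≤ K) →
    ∃ W U : Ω → ℝ, Measurable W ∧ Measurable U ∧ MemLp U 2 μ ∧ MemLp W 4 μ ∧
      (∀ᵐ ω ∂μ, m n ω - m 0 ω = W ω + U ω) ∧
      ∫ ω, U ω ^ 2 ∂μ ≤ ∑ k ∈ range n,
        ∫ ω, (if b < |m (k + 1) ω - m k ω| then (m (k + 1) ω - m k ω) ^ 2 else 0) ∂μ ∧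
      ∫ ω, W ω ^ 4 ∂μ ≤ 100 * (b ^ 2 * K + K ^ 2)

/-- sampling a martingale at the good times -/
def S_D2 : Prop :=
  ∀ (Ω : Type) [mΩ : MeasurableSpace Ω] (μ : Measure Ω) [IsProbabilityMeasure μ]
    (F : Filtration ℕ mΩ) (N : ℕ) (M g : ℕ → Ω → ℝ) (bad : ℕ → Set Ω) (w K : ℝ),
    0 ≤ w → 0 ≤ K → Martingale M F μ → (∀ t, MemLp (M t) 2 μ) → (∀ t, MemLp (g t) 2 μ) →
    (∀ t, Measurable[F t] (g t)) → (∀ t, MeasurableSet[F t] (bad t)) →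
    (∀ᵐ ω ∂μ, M N ω = ∑ s ∈ range N, g s ω) →
    (∀ t < N, ∀ᵐ ω ∂μ, ω ∉ bad t → |M t ω - ∑ s ∈ range t, g s ω| ≤ w ∧
      (μ[fun ω => (M N ω - M t ω) ^ 2 | F t]) ω ≤ K) →
    ∃ (H : Filtration ℕ mΩ) (m : ℕ → Ω → ℝ), Martingale m H μ ∧ (∀ k, MemLp (m k) 2 μ) ∧
      (∀ k, k ≤ N → ∀ᵐ ω ∂μ, (μ[fun ω => (m N ω - m k ω) ^ 2 | H k]) ω ≤ K) ∧
      (∀ᵐ ω ∂μ, m N ω = M N ω) ∧
      ∫ ω, m 0 ω ^ 2 ∂μ ≤ 2 * w ^ 2 + 2 * ∫ ω, en (fun t => g t ω) (fun t => ω ∈ bad t) N ∂μ ∧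
      ∑ k ∈ range N,
        ∫ ω, (if 4 * w < |m (k + 1) ω - m k ω| then (m (k + 1) ω - m k ω) ^ 2 else 0) ∂μ
      ≤ 16 * (∑ t ∈ range N, ∫ ω, (if w < |g t ω| then g t ω ^ 2 else 0) ∂μ
        + ∫ ω, en (fun t => g t ω) (fun t => ω ∈ bad t) N ∂μ)

/-- a martingale controlled at good times only -/
def S_D : Prop :=
  ∀ (Ω : Type) [mΩ : MeasurableSpace Ω] (μ : Measure Ω) [IsProbabilityMeasure μ]
    (F : Filtration ℕ mΩ) (N : ℕ) (M g : ℕ → Ω → ℝ) (bad : ℕ → Set Ω) (w K : ℝ),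
    0 ≤ w → 0 ≤ K → Martingale M F μ → (∀ t, MemLp (M t) 2 μ) → (∀ t, MemLp (g t) 2 μ) →
    (∀ t, Measurable[F t] (g t)) → (∀ t, MeasurableSet[F t] (bad t)) →
    (∀ᵐ ω ∂μ, M N ω = ∑ s ∈ range N, g s ω) →
    (∀ t < N, ∀ᵐ ω ∂μ, ω ∉ bad t → |M t ω - ∑ s ∈ range t, g s ω| ≤ w ∧
      (μ[fun ω => (M N ω - M t ω) ^ 2 | F t]) ω ≤ K) →
    ∃ W U : Ω → ℝ, Measurable W ∧ Measurable U ∧ MemLp U 2 μ ∧ MemLp W 4 μ ∧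
      (∀ᵐ ω ∂μ, ∑ s ∈ range N, g s ω = W ω + U ω) ∧
      ∫ ω, U ω ^ 2 ∂μ ≤ 1000 * (w ^ 2
        + ∑ t ∈ range N, ∫ ω, (if w < |g t ω| then g t ω ^ 2 else 0) ∂μ
        + ∫ ω, en (fun t => g t ω) (fun t => ω ∈ bad t) N ∂μ) ∧
      ∫ ω, W ω ^ 4 ∂μ ≤ 10000 * (w ^ 2 * K + K ^ 2)

/-- `GG`, `VV` are the conditional first and second moments of block sums -/
def S_G1 : Prop :=
  ∀ (S : Type) [MeasurableSpace S] (Q : Kernel S S) [IsMarkovKernel Q] (ν : Measure S)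
    [IsProbabilityMeasure ν], ν.bind Q = ν →
  ∀ f : S → ℝ, Measurable f → MemLp f 2 ν →
  (∀ j, Measurable (GG Q f j) ∧ MemLp (GG Q f j) 2 ν ∧ Measurable (VV Q f j) ∧
    Integrable (VV Q f j) ν) ∧
  ∀ (Ω : Type) [MeasurableSpace Ω] (μ : Measure Ω) [IsProbabilityMeasure μ] (X : ℕ → Ω → S),
    MC Q ν μ X →
    (∀ j, ∀ᵐ x ∂ν, 0 ≤ VV Q f j x) ∧
    (∀ t j : ℕ, μ[fun ω => ∑ i ∈ range j, f (X (t + i) ω) | FX X t]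
        =ᵐ[μ] fun ω => GG Q f j (X t ω)) ∧
    (∀ t j : ℕ, μ[fun ω => (∑ i ∈ range j, f (X (t + i) ω)) ^ 2 | FX X t]
        =ᵐ[μ] fun ω => VV Q f j (X t ω)) ∧
    (∀ j, ∫ ω, SS f X j ω ^ 2 ∂μ = ∫ x, VV Q f j x ∂ν)

/-- `‖G_j‖² = o(j)` -/
def S_G2 : Prop :=
  ∀ (S : Type) [MeasurableSpace S] (Q : Kernel S S) [IsMarkovKernel Q] (ν : Measure S)
    [IsProbabilityMeasure ν], ν.bind Q = ν →
  ∀ (f : S → ℝ) (Φ Ψ : ℝ × S → ℝ), Res Q ν f Φ Ψ →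
    Tendsto (fun j : ℕ => (∫ x, GG Q f j x ^ 2 ∂ν) / j) atTop (𝓝 0)

/-- second moments grow linearly -/
def S_G3 : Prop :=
  ∀ (S : Type) [MeasurableSpace S] (Q : Kernel S S) [IsMarkovKernel Q] (ν : Measure S)
    [IsProbabilityMeasure ν], ν.bind Q = ν →
  ∀ (f : S → ℝ) (Φ Ψ : ℝ × S → ℝ), Res Q ν f Φ Ψ →
  ∀ (Ω : Type) [MeasurableSpace Ω] (μ : Measure Ω) [IsProbabilityMeasure μ] (X : ℕ → Ω → S),
    MC Q ν μ X →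
    0 ≤ sg Q ν f Φ Ψ ∧
    Tendsto (fun n : ℕ => (∫ ω, SS f X n ω ^ 2 ∂μ) / n) atTop (𝓝 (sg Q ν f Φ Ψ)) ∧
    ∃ C : ℝ, 0 < C ∧ ∀ n : ℕ, ∫ ω, SS f X n ω ^ 2 ∂μ ≤ C * n

/-- uniform integrability of `S_N²/N` -/
def S_UI : Prop :=
  ∀ (S : Type) [MeasurableSpace S] (Q : Kernel S S) [IsMarkovKernel Q] (ν : Measure S)
    [IsProbabilityMeasure ν], ν.bind Q = ν →
  ∀ (f : S → ℝ) (Φ Ψ : ℝ × S → ℝ), Res Q ν f Φ Ψ →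
  ∀ (Ω : Type) [MeasurableSpace Ω] (μ : Measure Ω) [IsProbabilityMeasure μ] (X : ℕ → Ω → S),
    MC Q ν μ X →
  ∀ η : ℝ, 0 < η → ∃ R : ℝ, 0 < R ∧ ∀ N : ℕ,
    ∫ ω, (if R * N < SS f X N ω ^ 2 then SS f X N ω ^ 2 else 0) ∂μ ≤ η * N

/-- oscillation of a bounded backward martingale -/
def S_OSC : Prop :=
  ∀ (S : Type) [MeasurableSpace S] (Q : Kernel S S) [IsMarkovKernel Q] (ν : Measure S)
    [IsProbabilityMeasure ν], ν.bind Q = ν →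
  ∀ (Ω : Type) [MeasurableSpace Ω] (μ : Measure Ω) [IsProbabilityMeasure μ] (X : ℕ → Ω → S),
    MC Q ν μ X →
  ∀ w : S → ℝ, Measurable w → (∀ x, 0 ≤ w x ∧ w x ≤ 1) → ∀ (h : ℕ) (δ : ℝ), 0 < h → 0 < δ →
    ∫ ω, (w (X 0 ω) - mn (fun t => yk Q ν w t (X t ω)) h) ∂μ
      ≤ δ + 4 * (∫ x, w x ^ 2 ∂ν - ∫ x, yk Q ν w h x ^ 2 ∂ν) / δ ^ 2

/-- the conditional variances converge in `L¹` -/
def S_CV : Prop :=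
  ∀ (S : Type) [MeasurableSpace S] (Q : Kernel S S) [IsMarkovKernel Q] (ν : Measure S)
    [IsProbabilityMeasure ν], ν.bind Q = ν → Erg Q ν →
  ∀ (f : S → ℝ) (Φ Ψ : ℝ × S → ℝ), Res Q ν f Φ Ψ →
  ∀ (Ω : Type) [MeasurableSpace Ω] (μ : Measure Ω) [IsProbabilityMeasure μ] (X : ℕ → Ω → S),
    MC Q ν μ X →
    Tendsto (fun n : ℕ => ∫ x, |VV Q f n x / n - sg Q ν f Φ Ψ| ∂ν) atTop (𝓝 0)

/-- the central limit theorem under the resolvent hypothesis -/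
def S_CLT : Prop :=
  ∀ (S : Type) [MeasurableSpace S] (Q : Kernel S S) [IsMarkovKernel Q] (ν : Measure S)
    [IsProbabilityMeasure ν], ν.bind Q = ν → Erg Q ν →
  ∀ (f : S → ℝ) (Φ Ψ : ℝ × S → ℝ), Res Q ν f Φ Ψ →
  ∀ (Ω : Type) [MeasurableSpace Ω] (μ : Measure Ω) [IsProbabilityMeasure μ] (X : ℕ → Ω → S),
    MC Q ν μ X →
    ∀ g : ℝ → ℝ, Continuous g → (∃ C : ℝ, ∀ x, |g x| ≤ C) →
        Tendsto (fun n : ℕ => ∫ ω, g ((Real.sqrt n)⁻¹ * ∑ i ∈ range n, f (X i ω)) ∂μ)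
          atTop (𝓝 (∫ x, g x ∂(gaussianReal 0 (sg Q ν f Φ Ψ).toNNReal)))

/-- existence of the resolvent data from square-summable powers (one direction) -/
def S_RS : Prop :=
  ∀ (S : Type) [MeasurableSpace S] (ν : Measure S) [IsProbabilityMeasure ν]
    (a : ℕ → S → ℝ) (P : (ℝ × S → ℝ) → (ℝ × S → ℝ)),
    (∀ j, Measurable (a j)) → (∀ j, MemLp (a j) 2 ν) →
    Summable (fun j => ∫ x, a j x ^ 2 ∂ν) →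
    (∀ h, MemLp h 2 (nuh ν) → Measurable h → Measurable (P h) ∧ MemLp (P h) 2 (nuh ν) ∧
      ∫ p, P h p ^ 2 ∂(nuh ν) ≤ ∫ p, h p ^ 2 ∂(nuh ν)) →
    (∀ h h', MemLp h 2 (nuh ν) → Measurable h → MemLp h' 2 (nuh ν) → Measurable h' →
      P (fun p => h p - h' p) =ᵐ[nuh ν] fun p => P h p - P h' p) →
    (∀ n, P (fun p => ∑ j ∈ range n, p.1 ^ j * a j p.2) =ᵐ[nuh ν]
      fun p => ∑ j ∈ range n, p.1 ^ j * a (j + 1) p.2) →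
    ∃ Φ : ℝ × S → ℝ, Measurable Φ ∧ MemLp Φ 2 (nuh ν) ∧
      ∀ᵐ p ∂(nuh ν), Φ p = a 0 p.2 + p.1 * P Φ p

/-- resolvent data from the hypotheses of S19611 -/
def S_RES : Prop :=
  ∀ (S : Type) [MeasurableSpace S] (Q : Kernel S S) [IsMarkovKernel Q] (ν : Measure S)
    [IsProbabilityMeasure ν], ν.bind Q = ν → ∀ f : S → ℝ, Measurable f → MemLp f 2 ν →
    Summable (fun k : ℕ =>
      ∫ x, ((fun (h : S → ℝ) => fun y => ∫ z, h z ∂(Q y))^[k+1] f x) ^ 2 ∂ν) →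
    (∃ c : ℕ → ℝ, Summable c ∧ ∀ k : ℕ, ∀ g : S → ℝ, Measurable g →
        (∃ C : ℝ, ∀ x, |g x| ≤ C) → ∫ x, g x ^ 2 ∂ν ≤ 1 →
        (∫ x, f x * (fun (h : S → ℝ) => fun y => ∫ z, h z ∂(Q y))^[k+1] g x ∂ν) ^ 2 ≤ c k) →
    ∃ Φ Ψ : ℝ × S → ℝ, Res Q ν f Φ Ψ

end Pool.Agent.N939.ME
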