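import Pool.Agent.N939.ME.Stm

/-!
PROJECT ME (helper939): more statements (crossings).
-/

set_option autoImplicit false
open MeasureTheory ProbabilityTheory Filter Topology Finset
open scoped Classical

namespace Pool.Agent.N939.ME

/-- discounted exits are controlled by down-crossings, forward -/
def S_CRF : Prop :=
  ∀ (S : Type) [MeasurableSpace S] (Q : Kernel S S) [IsMarkovKernel Q] (ν : Measure S)
    [IsProbabilityMeasure ν], ν.bind Q = ν →
  ∀ b : ℕ → Set S, (∀ t, MeasurableSet (b t)) → ∀ A : Set S, MeasurableSet A →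
  ∀ ρ : ℝ, 0 ≤ ρ → ρ < 1 → ∀ N : ℕ,
    ∑ t ∈ range (N - 1), ∫ x, ((b t ∪ A) \ A).indicator
        (thf Q ρ (fun t => b t ∪ A) (N - 1 - t) t) x ∂ν
    ≤ 1 / (1 - ρ) * ∑ t ∈ range (N - 1),
        ∫ x, (b t).indicator (TT Q (((b (t + 1))ᶜ).indicator 1)) x ∂ν

/-- discounted exits are controlled by crossings, backward -/
def S_CRB : Prop :=
  ∀ (S : Type) [MeasurableSpace S] (Q : Kernel S S) [IsMarkovKernel Q] (ν : Measure S)
    [IsProbabilityMeasure ν], ν.bind Q = ν →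
  ∀ b : ℕ → Set S, (∀ t, MeasurableSet (b t)) → ∀ A : Set S, MeasurableSet A →
  ∀ ρ : ℝ, 0 ≤ ρ → ρ < 1 → ∀ N : ℕ,
    ∑ t ∈ range (N - 1), ∫ x, ((b t ∪ A) \ A).indicator
        (thb Q ν ρ (fun t => b t ∪ A) t) x ∂ν
    ≤ 1 / (1 - ρ) * ∑ t ∈ range (N - 1),
        ∫ x, ((b t)ᶜ).indicator (TT Q ((b (t + 1)).indicator 1)) x ∂ν

/-- counting the crossings of the levels `k/m` by `y_t` -/
def S_CRC : Prop :=
  ∀ (S : Type) [MeasurableSpace S] (Q : Kernel S S) [IsMarkovKernel Q] (ν : Measure S)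
    [IsProbabilityMeasure ν], ν.bind Q = ν →
  ∀ y : S → ℝ, Measurable y → (∀ x, 0 ≤ y x ∧ y x ≤ 1) → ∀ m N : ℕ, 0 < m →
    ∑ k ∈ range m, ∑ t ∈ range (N - 1),
      (∫ x, ({x | (k : ℝ) / m < yk Q ν y t x}).indicator
          (TT Q (({x | (k : ℝ) / m < yk Q ν y (t + 1) x}ᶜ).indicator 1)) x ∂ν
        + ∫ x, (({x | (k : ℝ) / m < yk Q ν y t x})ᶜ).indicator
          (TT Q (({x | (k : ℝ) / m < yk Q ν y (t + 1) x}).indicator 1)) x ∂ν)
    ≤ 2 * (m * Real.sqrt N + N)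

end Pool.Agent.N939.ME
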