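import Pool.Agent.N939.ME.Stm2

/-!
PROJECT ME (helper939): statements for the square root conditions (MP_cd27db_pr).
-/

set_option autoImplicit false
open MeasureTheory ProbabilityTheory Filter Topology Finset
open scoped Classical

namespace Pool.Agent.N939.ME

/-- `δ n` is the coefficient of `x^(n+1)` in `1 - sqrt (1 - x)` -/
def IsDl (δ : ℕ → ℝ) : Prop :=
  ∀ x : ℝ, |x| < 1 → HasSum (fun n => δ n * x ^ (n + 1)) (1 - Real.sqrt (1 - x))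

/-- facts on the coefficients -/
def S_DL : Prop :=
  ∀ δ : ℕ → ℝ, IsDl δ → (∀ n, 0 ≤ δ n) ∧ Summable δ ∧ ∑' n, δ n = 1 ∧
    ∀ u : ℂ, ‖u‖ ≤ 1 → (1 - ∑' n, (δ n : ℂ) * u ^ (n + 1)) ^ 2 = 1 - u

/-- Taylor coefficients (in `u`) of `sqrt(1-u)/(1-ru)` -/
noncomputable def cc (δ : ℕ → ℝ) (n : ℕ) (r : ℝ) : ℝ :=
  r ^ n - ∑ k ∈ range n, δ k * r ^ (n - 1 - k)

/-- Gram forms of contractions are dominated by Toeplitz forms -/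
def S_OPa : Prop :=
  ∀ (H : Type) [NormedAddCommGroup H] [InnerProductSpace ℝ H] (A : H →L[ℝ] H),
    (∀ x, ‖A x‖ ≤ ‖x‖) → ∀ (g : H) (n : ℕ) (c : ℕ → ℝ),
    ‖∑ p ∈ range n, c p • (A ^ p) g‖ ^ 2 ≤
      ∑ p ∈ range n, ∑ q ∈ range n, c p * c q * inner ℝ ((A ^ (Nat.dist p q)) g) g

/-- Fejer argument -/
def S_OPb : Prop :=
  ∀ τ : ℕ → ℝ,
    (∀ (n : ℕ) (c : ℕ → ℝ),
      0 ≤ ∑ p ∈ range n, ∑ q ∈ range n, c p * c q * τ (Nat.dist p q)) →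
    ∀ (n : ℕ) (C R : ℝ) (c : ℕ → ℝ → ℝ), 0 ≤ R → (∀ p, Continuous (c p)) →
      (∀ θ : ℝ, ∫ r in (0:ℝ)..R, ((∑ p ∈ range n, c p r * Real.cos (p * θ)) ^ 2
        + (∑ p ∈ range n, c p r * Real.sin (p * θ)) ^ 2) ≤ C) →
      ∫ r in (0:ℝ)..R, ∑ p ∈ range n, ∑ q ∈ range n, c p r * c q r * τ (Nat.dist p q)
        ≤ C * τ 0

/-- scalar square function estimate -/
def S_OPc : Prop :=
  ∃ C : ℝ, ∀ δ : ℕ → ℝ, IsDl δ → ∀ R : ℝ, 0 < R → R < 1 → ∃ n0 : ℕ, ∀ n : ℕ, n0 ≤ n →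
    ∀ θ : ℝ, ∫ r in (0:ℝ)..R, ((∑ p ∈ range n, cc δ p r * Real.cos (p * θ)) ^ 2
        + (∑ p ∈ range n, cc δ p r * Real.sin (p * θ)) ^ 2) ≤ C

/-- square function estimate for contractions -/
def S_OP : Prop :=
  ∃ C : ℝ, 0 ≤ C ∧ ∀ δ : ℕ → ℝ, IsDl δ →
  ∀ (H : Type) [NormedAddCommGroup H] [InnerProductSpace ℝ H] (A : H →L[ℝ] H),
    (∀ x, ‖A x‖ ≤ ‖x‖) → ∀ g f : H,
    Tendsto (fun N : ℕ => g - ∑ n ∈ range N, δ n • (A ^ (n + 1)) g) atTop (𝓝 f) →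
    ∀ R : ℝ, 0 < R → R < 1 → ∃ n0 : ℕ, ∀ n : ℕ, n0 ≤ n →
      ∫ r in (0:ℝ)..R, ‖∑ j ∈ range n, r ^ j • (A ^ j) f‖ ^ 2 ≤ C * ‖g‖ ^ 2 + 1

/-- the same for operators on functions -/
def S_OPF : Prop :=
  ∀ δ : ℕ → ℝ, IsDl δ →
  ∀ (S : Type) [MeasurableSpace S] (ν : Measure S) [IsProbabilityMeasure ν]
    (O : (S → ℝ) → (S → ℝ)),
    (∀ h h' : S → ℝ, h =ᵐ[ν] h' → O h =ᵐ[ν] O h') →
    (∀ h : S → ℝ, MemLp h 2 ν → MemLp (O h) 2 ν ∧ ∫ x, O h x ^ 2 ∂ν ≤ ∫ x, h x ^ 2 ∂ν) →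
    (∀ h h' : S → ℝ, MemLp h 2 ν → MemLp h' 2 ν →
      O (fun x => h x + h' x) =ᵐ[ν] fun x => O h x + O h' x) →
    (∀ (h : S → ℝ) (c : ℝ), MemLp h 2 ν → O (fun x => c * h x) =ᵐ[ν] fun x => c * O h x) →
    ∀ f g : S → ℝ, MemLp f 2 ν → MemLp g 2 ν → (∀ n, Measurable (O^[n] f)) →
    Tendsto (fun N : ℕ => ∫ x, (g x - ∑ n ∈ range N, δ n * O^[n + 1] g x - f x) ^ 2 ∂ν)
      atTop (𝓝 0) →
    ∃ C : ℝ, ∀ R : ℝ, 0 < R → R < 1 → ∃ n0 : ℕ, ∀ n : ℕ, n0 ≤ n →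
      ∫ p : ℝ × S, (Set.Iio R).indicator 1 p.1 * (∑ j ∈ range n, p.1 ^ j * O^[j] f p.2) ^ 2
        ∂(nuh ν) ≤ C

/-- existence of the resolvent from locally uniform bounds -/
def S_RS2 : Prop :=
  ∀ (S : Type) [MeasurableSpace S] (ν : Measure S) [IsProbabilityMeasure ν]
    (a : ℕ → S → ℝ) (P : (ℝ × S → ℝ) → (ℝ × S → ℝ)),
    (∀ j, Measurable (a j)) → (∀ j, MemLp (a j) 2 ν) →
    (∃ K : ℝ, ∀ j, ∫ x, a j x ^ 2 ∂ν ≤ K) →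
    (∃ C : ℝ, ∀ R : ℝ, 0 < R → R < 1 → ∃ n0 : ℕ, ∀ n : ℕ, n0 ≤ n →
      ∫ p : ℝ × S, (Set.Iio R).indicator 1 p.1 * (∑ j ∈ range n, p.1 ^ j * a j p.2) ^ 2
        ∂(nuh ν) ≤ C) →
    (∀ h, MemLp h 2 (nuh ν) → Measurable h → Measurable (P h) ∧ MemLp (P h) 2 (nuh ν) ∧
      ∫ p, P h p ^ 2 ∂(nuh ν) ≤ ∫ p, h p ^ 2 ∂(nuh ν)) →
    (∀ h h', MemLp h 2 (nuh ν) → Measurable h → MemLp h' 2 (nuh ν) → Measurable h' →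
      P (fun p => h p - h' p) =ᵐ[nuh ν] fun p => P h p - P h' p) →
    (∀ (h : ℝ × S → ℝ) (R : ℝ), MemLp h 2 (nuh ν) → Measurable h →
      P (fun p => (Set.Iio R).indicator 1 p.1 * h p)
        =ᵐ[nuh ν] fun p => (Set.Iio R).indicator 1 p.1 * P h p) →
    (∀ n, P (fun p => ∑ j ∈ range n, p.1 ^ j * a j p.2) =ᵐ[nuh ν]
      fun p => ∑ j ∈ range n, p.1 ^ j * a (j + 1) p.2) →
    ∃ Φ : ℝ × S → ℝ, Measurable Φ ∧ MemLp Φ 2 (nuh ν) ∧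
      ∀ᵐ p ∂(nuh ν), Φ p = a 0 p.2 + p.1 * P Φ p

/-- the adjoint on the hat space commutes with functions of `r` -/
def S_PB : Prop :=
  ∀ (S : Type) [MeasurableSpace S] (Q : Kernel S S) [IsMarkovKernel Q] (ν : Measure S)
    [IsProbabilityMeasure ν], ν.bind Q = ν →
  (∀ (φ : ℝ → ℝ) (h : ℝ × S → ℝ), Measurable φ → (∃ C : ℝ, ∀ r, |φ r| ≤ C) →
    MemLp h 2 (nuh ν) →
    bk (Qh Q) (nuh ν) (fun p => φ p.1 * h p) =ᵐ[nuh ν]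
      fun p => φ p.1 * bk (Qh Q) (nuh ν) h p) ∧
  (∀ a : S → ℝ, MemLp a 2 ν →
    bk (Qh Q) (nuh ν) (fun p => a p.2) =ᵐ[nuh ν] fun p => bk Q ν a p.2) ∧
  (∀ (a : ℕ → S → ℝ) (n : ℕ), (∀ j, MemLp (a j) 2 ν) →
    bk (Qh Q) (nuh ν) (fun p => ∑ j ∈ range n, p.1 ^ j * a j p.2) =ᵐ[nuh ν]
      fun p => ∑ j ∈ range n, p.1 ^ j * bk Q ν (a j) p.2) ∧
  (∀ (a : ℕ → S → ℝ) (n : ℕ), (∀ j, MemLp (a j) 2 ν) →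
    TT (Qh Q) (fun p => ∑ j ∈ range n, p.1 ^ j * a j p.2) =ᵐ[nuh ν]
      fun p => ∑ j ∈ range n, p.1 ^ j * TT Q (a j) p.2)

/-- forward resolvent from `f = sqrt(I-Q) g` -/
def S_SQF : Prop :=
  ∀ (S : Type) [MeasurableSpace S] (Q : Kernel S S) [IsMarkovKernel Q] (ν : Measure S)
    [IsProbabilityMeasure ν], ν.bind Q = ν → ∀ δ : ℕ → ℝ, IsDl δ →
  ∀ f g : S → ℝ, Measurable f → MemLp f 2 ν → Measurable g → MemLp g 2 ν →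
    Tendsto (fun N : ℕ => ∫ x, (g x - ∑ n ∈ range N, δ n * (TT Q)^[n + 1] g x - f x) ^ 2 ∂ν)
      atTop (𝓝 0) →
    ∃ Φ : ℝ × S → ℝ, Measurable Φ ∧ MemLp Φ 2 (nuh ν) ∧
      ∀ᵐ p ∂(nuh ν), Φ p = f p.2 + p.1 * TT (Qh Q) Φ p

/-- backward resolvent from `f = sqrt(I-Q*) b_0`, `b_n = Q*^n b_0` -/
def S_SQB : Prop :=
  ∀ (S : Type) [MeasurableSpace S] (Q : Kernel S S) [IsMarkovKernel Q] (ν : Measure S)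
    [IsProbabilityMeasure ν], ν.bind Q = ν → ∀ δ : ℕ → ℝ, IsDl δ →
  ∀ (f : S → ℝ) (b : ℕ → S → ℝ), Measurable f → MemLp f 2 ν →
    (∀ n, Measurable (b n)) → (∀ n, MemLp (b n) 2 ν) →
    (∀ (n : ℕ) (h : S → ℝ), Measurable h → MemLp h 2 ν →
      ∫ x, b (n + 1) x * h x ∂ν = ∫ x, b n x * TT Q h x ∂ν) →
    Tendsto (fun N : ℕ => ∫ x, (b 0 x - ∑ n ∈ range N, δ n * b (n + 1) x - f x) ^ 2 ∂ν)
      atTop (𝓝 0) →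
    ∃ Ψ : ℝ × S → ℝ, Measurable Ψ ∧ MemLp Ψ 2 (nuh ν) ∧
      ∀ᵐ p ∂(nuh ν), Ψ p = f p.2 + p.1 * bk (Qh Q) (nuh ν) Ψ p

end Pool.Agent.N939.ME
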